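import Pool.Agent.V8H30.OC.Sector

set_option autoImplicit false

open Set Metric Complex

namespace Pool.Agent.V8H30.OC

theorem norm_sq_re_im (z : ℂ) : ‖z‖ ^ 2 = z.re ^ 2 + z.im ^ 2 := by
  rw [← Complex.normSq_eq_norm_sq, Complex.normSq_apply]; ring

theorem norm_of_im_zero {z : ℂ} (h : z.im = 0) (h2 : 0 ≤ z.re) : ‖z‖ = z.re := by
  have := norm_sq_re_im z
  rw [h] at this
  have h3 : ‖z‖ ^ 2 = z.re ^ 2 := by rw [this]; ring
  exact (pow_left_inj₀ (norm_nonneg _) h2 two_ne_zero).1 h3

theorem norm_of_re_zero {z : ℂ} (h : z.re = 0) (h2 : 0 ≤ z.im) : ‖z‖ = z.im := by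
  have := norm_sq_re_im z
  rw [h] at this
  have h3 : ‖z‖ ^ 2 = z.im ^ 2 := by rw [this]; ring
  exact (pow_left_inj₀ (norm_nonneg _) h2 two_ne_zero).1 h3

theorem sector {S : Finset (ℂ × ℝ)} {G : ℂ → ℂ} {δ δ' : ℝ}
    (C : Chart (curves S) (crossings S) G δ δ') :
    IsFace S (G '' Q δ) ∧ Triangular S (G '' Q δ) := by
  have hδ := C.pos
  have hlt := C.lt
  have hball : ∀ z : ℂ, z ∈ ball (0:ℂ) δ' ↔ ‖z‖ < δ' := by intro z; simp
  -- vertices
  have hv : ∀ i, vert δ i ∈ ball (0:ℂ) δ' := by
    intro i
    fin_cases i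
    · show (0:ℂ) ∈ _
      rw [hball]; simp; linarith
    · show (δ:ℂ) ∈ _
      rw [hball, Complex.norm_real, Real.norm_of_nonneg hδ.le]; exact hlt
    · show (δ:ℂ) * I ∈ _
      rw [hball]; simp [abs_of_pos hδ, hlt]
  have hvX : ∀ i, G (vert δ i) ∈ crossings S := by
    intro i
    rw [C.cr _ (hv i)]
    fin_cases i
    · left; rfl
    · right
      show ‖(δ:ℂ)‖ = δ ∧ _
      refine ⟨by rw [Complex.norm_real, Real.norm_of_nonneg hδ.le], Or.inr ?_⟩
      show ((δ:ℂ)).im = 0
      simp
    · right
      show ‖(δ:ℂ) * I‖ = δ ∧ _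
      refine ⟨by simp [abs_of_pos hδ], Or.inl ?_⟩
      show ((δ:ℂ) * I).re = 0
      simp
  -- the arcs
  set W : Fin 3 → Set ℂ := ![W0 δ, W1 δ, W2 δ] with hWdef
  have hN0 : IsOpen {z : ℂ | |z.im| < z.re ∧ ‖z‖ < δ} :=
    (isOpen_lt (continuous_abs.comp Complex.continuous_im) Complex.continuous_re).inter
      (isOpen_lt continuous_norm continuous_const)
  have hN1 : IsOpen {z : ℂ | 0 < z.re ∧ 0 < z.im ∧ ‖z‖ < δ'} := Q_open δ'
  have hN2 : IsOpen {z : ℂ | |z.re| < z.im ∧ ‖z‖ < δ} :=
    (isOpen_lt (continuous_abs.comp Complex.continuous_re) Complex.continuous_im).inter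
      (isOpen_lt continuous_norm continuous_const)
  have hA0 : IsArc S (G '' W0 δ) ∧ closure (G '' W0 δ) =
      G '' W0 δ ∪ {G (path δ 0 0), G (path δ 0 1)} := by
    apply arc_aux C hN0 (h := path δ 0) (W := W0 δ)
    · intro z hz; rw [hball]; linarith [hz.2]
    · rintro z ⟨h1, h2, h3⟩
      refine ⟨by rw [h1]; simpa using h2, ?_⟩
      rw [norm_of_im_zero h1 h2.le]; exact h3
    · rintro z ⟨h1, h2⟩
      have hb : z ∈ ball (0:ℂ) δ' := by rw [hball]; linarith
      have hre : 0 < z.re := lt_of_le_of_lt (abs_nonneg _) h1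
      rw [C.mem z hb, C.cr z hb]
      constructor
      · rintro ⟨h3, -⟩
        rcases h3 with h3 | h3 | h3
        · linarith
        · refine ⟨h3, hre, ?_⟩
          rw [norm_of_im_zero h3 hre.le] at h2; exact h2
        · linarith
      · rintro ⟨h3, h4, h5⟩
        refine ⟨Or.inr (Or.inl h3), ?_⟩
        rintro (h6 | ⟨h6, -⟩)
        · rw [h6] at hre; simp at hre
        · linarith
    · exact path_cont δ 0
    · exact path0 hδ
    · rw [path_zero]; exact hv 0
    · rw [path_one]; exact hv _
    · rw [path_zero]; exact hvX 0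
    · rw [path_one]; exact hvX _
  have hA2 : IsArc S (G '' W2 δ) ∧ closure (G '' W2 δ) =
      G '' W2 δ ∪ {G (path δ 2 0), G (path δ 2 1)} := by
    apply arc_aux C hN2 (h := path δ 2) (W := W2 δ)
    · intro z hz; rw [hball]; linarith [hz.2]
    · rintro z ⟨h1, h2, h3⟩
      refine ⟨by rw [h1]; simpa using h2, ?_⟩
      rw [norm_of_re_zero h1 h2.le]; exact h3
    · rintro z ⟨h1, h2⟩
      have hb : z ∈ ball (0:ℂ) δ' := by rw [hball]; linarith
      have him : 0 < z.im := lt_of_le_of_lt (abs_nonneg _) h1
      rw [C.mem z hb, C.cr z hb]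
      constructor
      · rintro ⟨h3, -⟩
        rcases h3 with h3 | h3 | h3
        · refine ⟨h3, him, ?_⟩
          rw [norm_of_re_zero h3 him.le] at h2; exact h2
        · linarith
        · linarith
      · rintro ⟨h3, h4, h5⟩
        refine ⟨Or.inl h3, ?_⟩
        rintro (h6 | ⟨h6, -⟩)
        · rw [h6] at him; simp at him
        · linarith
    · exact path_cont δ 2
    · exact path2 hδ
    · rw [path_zero]; exact hv 2
    · rw [path_one]; exact hv _
    · rw [path_zero]; exact hvX 2
    · rw [path_one]; exact hvX _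
  have hA1 : IsArc S (G '' W1 δ) ∧ closure (G '' W1 δ) =
      G '' W1 δ ∪ {G (path δ 1 0), G (path δ 1 1)} := by
    apply arc_aux C hN1 (h := path δ 1) (W := W1 δ)
    · intro z hz; rw [hball]; exact hz.2.2
    · rintro z ⟨h1, h2, h3⟩
      exact ⟨h2, h3, by rw [h1]; exact hlt⟩
    · rintro z ⟨h1, h2, h3⟩
      have hb : z ∈ ball (0:ℂ) δ' := by rw [hball]; exact h3
      rw [C.mem z hb, C.cr z hb]
      constructor
      · rintro ⟨h4, -⟩
        rcases h4 with h4 | h4 | h4
        · linarith
        · linarith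
        · exact ⟨h4, h1, h2⟩
      · rintro ⟨h4, -, -⟩
        refine ⟨Or.inr (Or.inr h4), ?_⟩
        rintro (h6 | ⟨-, h6 | h6⟩)
        · rw [h6] at h1; simp at h1
        · linarith
        · linarith
    · exact path_cont δ 1
    · exact path1 hδ
    · rw [path_zero]; exact hv 1
    · rw [path_one]; exact hv _
    · rw [path_zero]; exact hvX 1
    · rw [path_one]; exact hvX _
  have hQb : Q δ ⊆ ball 0 δ' := by
    intro z hz; rw [hball]; linarith [hz.2.2]
  have hQcb : Qc δ ⊆ ball 0 δ' := by
    intro z hz; rw [hball]; linarith [hz.2.2]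
  have hcG : ContinuousOn G (Qc δ) := C.cont.mono hQcb
  have hclQ : closure (Q δ) = Qc δ :=
    Subset.antisymm (closure_minimal (fun z hz => ⟨hz.1.le, hz.2.1.le, hz.2.2.le⟩) (Qc_closed δ))
      (Qc_subset_closure hδ)
  have hclF : closure (G '' Q δ) = G '' Qc δ := by
    apply Subset.antisymm
    · apply closure_minimal
      · apply image_mono
        intro z hz
        exact ⟨hz.1.le, hz.2.1.le, hz.2.2.le⟩
      · exact ((Qc_compact δ).image_of_continuousOn hcG).isClosed
    · have := ContinuousOn.image_closure (f := G) (s := Q δ) (by rw [hclQ]; exact hcG)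
      rwa [hclQ] at this
  have hFo : IsOpen (G '' Q δ) := C.opn _ hQb (Q_open δ)
  have hFU : G '' Q δ ⊆ (curves S)ᶜ := by
    rintro _ ⟨z, hz, rfl⟩ h
    rw [C.mem z (hQb hz)] at h
    rcases h with h | h | h
    · exact absurd h hz.1.ne'
    · exact absurd h hz.2.1.ne'
    · exact absurd h hz.2.2.ne
  have hpt : ((δ / 4 : ℝ) : ℂ) * (1 + I) ∈ Q δ := by
    refine ⟨by simp [hδ], by simp [hδ], ?_⟩
    calc ‖((δ / 4 : ℝ) : ℂ) * (1 + I)‖ ≤ |(((δ / 4 : ℝ) : ℂ) * (1 + I)).re| +
          |(((δ / 4 : ℝ) : ℂ) * (1 + I)).im| := Complex.norm_le_abs_re_add_abs_im _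
      _ = δ / 4 + δ / 4 := by
        have h4 : |δ / 4| = δ / 4 := abs_of_pos (by positivity)
        simp [h4]
      _ < δ := by linarith
  have hQp : IsPreconnected (G '' Q δ) := by
    apply IsPreconnected.image
    · exact (Q_convex δ).isPreconnected
    · exact C.cont.mono hQb
  constructor
  · refine ⟨G (((δ / 4 : ℝ) : ℂ) * (1 + I)), hFU (mem_image_of_mem _ hpt), ?_⟩
    symm
    apply comp_eq hFU hQp (mem_image_of_mem _ hpt) hFo
    · exact inter_eq_left.2 hFU
    · rw [hclF]
      rintro _ ⟨⟨z, hz, rfl⟩, h⟩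
      apply mem_image_of_mem
      have h2 : ¬ (z.re = 0 ∨ z.im = 0 ∨ ‖z‖ = δ) := by
        rw [← C.mem z (hQcb hz)]; exact h
      push Not at h2
      exact ⟨lt_of_le_of_ne hz.1 (Ne.symm h2.1), lt_of_le_of_ne hz.2.1 (Ne.symm h2.2.1),
        lt_of_le_of_ne hz.2.2 h2.2.2⟩
  · have hWb : ∀ i, W i ⊆ ball 0 δ' := by
      intro i
      fin_cases i
      · intro z hz
        rw [hball, norm_of_im_zero hz.1 hz.2.1.le]; linarith [hz.2.2]
      · intro z hz
        rw [hball, hz.1]; exact hlt
      · intro z hz
        rw [hball, norm_of_re_zero hz.1 hz.2.1.le]; linarith [hz.2.2]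
    have hWin : Function.Injective (fun i => G '' W i) := by
      have hne : ∀ i j, i ≠ j → Disjoint (W i) (W j) := by
        have h01 : Disjoint (W0 δ) (W1 δ) := by
          rw [Set.disjoint_left]; intro z h1 h2; exact absurd h1.1 h2.2.2.ne'
        have h02 : Disjoint (W0 δ) (W2 δ) := by
          rw [Set.disjoint_left]; intro z h1 h2; exact absurd h1.1 h2.2.1.ne'
        have h12 : Disjoint (W1 δ) (W2 δ) := by
          rw [Set.disjoint_left]; intro z h1 h2; exact absurd h2.1 h1.2.1.ne'
        intro i j hij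
        fin_cases i <;> fin_cases j
        · exact absurd rfl hij
        · exact h01
        · exact h02
        · exact h01.symm
        · exact absurd rfl hij
        · exact h12
        · exact h02.symm
        · exact h12.symm
        · exact absurd rfl hij
      have hnon : ∀ i, (W i).Nonempty := by
        intro i
        fin_cases i
        · exact ⟨_, by
            show path δ 0 (1/2) ∈ W0 δ
            rw [← path0 hδ]; exact mem_image_of_mem _ ⟨by norm_num, by norm_num⟩⟩
        · exact ⟨_, by
            show path δ 1 (1/2) ∈ W1 δ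
            rw [← path1 hδ]; exact mem_image_of_mem _ ⟨by norm_num, by norm_num⟩⟩
        · exact ⟨_, by
            show path δ 2 (1/2) ∈ W2 δ
            rw [← path2 hδ]; exact mem_image_of_mem _ ⟨by norm_num, by norm_num⟩⟩
      intro i j hij
      by_contra hne2
      obtain ⟨z, hz⟩ := hnon i
      have h1 : G z ∈ G '' W j := by
        have := mem_image_of_mem G hz
        simp only at hij
        rwa [hij] at this
      obtain ⟨y, hy, hyz⟩ := h1
      have := C.inj (hWb j hy) (hWb i hz) hyz
      rw [this] at hy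
      exact Set.disjoint_left.1 (hne i j hne2) hz hy
    have hvin : Function.Injective (fun i => G (vert δ i)) := by
      intro i j hij
      have h := C.inj (hv i) (hv j) hij
      have hδ0 : (δ:ℂ) ≠ 0 := by exact_mod_cast hδ.ne'
      fin_cases i <;> fin_cases j
      · rfl
      · exact absurd (show (0:ℂ) = δ from h).symm hδ0
      · exact absurd (show (0:ℂ) = δ * I from h).symm (mul_ne_zero hδ0 I_ne_zero)
      · exact absurd (show (δ:ℂ) = 0 from h) hδ0
      · rfl
      · have h2 := congrArg Complex.re (show (δ:ℂ) = δ * I from h)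
        simp at h2; exact absurd h2 hδ.ne'
      · exact absurd (show (δ:ℂ) * I = 0 from h) (mul_ne_zero hδ0 I_ne_zero)
      · have h2 := congrArg Complex.re (show (δ:ℂ) * I = δ from h)
        simp at h2; exact absurd h2.symm hδ.ne'
      · rfl
    have hcl : ∀ i, closure (G '' W i) = G '' W i ∪ {G (vert δ i), G (vert δ (i + 1))} := by
      intro i
      fin_cases i
      · have := hA0.2
        rw [path_zero, path_one] at this
        exact this
      · have := hA1.2
        rw [path_zero, path_one] at this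
        exact this
      · have := hA2.2
        rw [path_zero, path_one] at this
        exact this
    refine ⟨fun i => G '' W i, fun i => G (vert δ i), hWin, hvin, ?_, hvX, hcl, ?_⟩
    · intro i
      fin_cases i
      · exact hA0.1
      · exact hA1.1
      · exact hA2.1
    · rw [hFo.frontier_eq, hclF]
      apply Subset.antisymm
      · rintro _ ⟨⟨z, hz, rfl⟩, h2⟩
        rw [mem_iUnion]
        have h3 : z ∉ Q δ := fun h => h2 (mem_image_of_mem _ h)
        have hvm : ∀ i, G (vert δ i) ∈ closure (G '' W i) := by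
          intro i; rw [hcl i]; right; left; rfl
        rcases eq_or_lt_of_le hz.1 with h4 | h4
        · -- re = 0
          rcases eq_or_lt_of_le hz.2.1 with h5 | h5
          · have hz0 : z = vert δ 0 := Complex.ext h4.symm h5.symm
            exact ⟨0, by rw [hz0]; exact hvm 0⟩
          · have hn := norm_of_re_zero h4.symm h5.le
            rcases eq_or_lt_of_le hz.2.2 with h6 | h6
            · have hz0 : z = vert δ 2 := by
                apply Complex.ext
                · show z.re = ((δ:ℂ) * I).re
                  simp [← h4]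
                · show z.im = ((δ:ℂ) * I).im
                  rw [← hn, h6]; simp
              exact ⟨2, by rw [hz0]; exact hvm 2⟩
            · refine ⟨2, ?_⟩
              rw [hcl 2]
              left
              exact mem_image_of_mem _ ⟨h4.symm, h5, by rw [← hn]; exact h6⟩
        · rcases eq_or_lt_of_le hz.2.1 with h5 | h5
          · have hn := norm_of_im_zero h5.symm h4.le
            rcases eq_or_lt_of_le hz.2.2 with h6 | h6
            · have hz0 : z = vert δ 1 := by
                apply Complex.ext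
                · show z.re = ((δ:ℂ)).re
                  rw [← hn, h6]; simp
                · show z.im = ((δ:ℂ)).im
                  simp [← h5]
              exact ⟨1, by rw [hz0]; exact hvm 1⟩
            · refine ⟨0, ?_⟩
              rw [hcl 0]
              left
              exact mem_image_of_mem _ ⟨h5.symm, h4, by rw [← hn]; exact h6⟩
          · rcases eq_or_lt_of_le hz.2.2 with h6 | h6
            · refine ⟨1, ?_⟩
              rw [hcl 1]
              left
              exact mem_image_of_mem _ ⟨h6, h4, h5⟩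
            · exact absurd ⟨h4, h5, h6⟩ h3
      · -- arcs and vertices lie in the frontier
        have hvQ : ∀ i, vert δ i ∈ Qc δ \ Q δ := by
          intro i
          fin_cases i
          · refine ⟨⟨le_refl _, le_refl _, ?_⟩, fun h => absurd h.1 (lt_irrefl _)⟩
            show ‖(0:ℂ)‖ ≤ δ
            simp [hδ.le]
          · refine ⟨⟨?_, ?_, ?_⟩, fun h => ?_⟩
            · show 0 ≤ ((δ:ℂ)).re
              simp [hδ.le]
            · show 0 ≤ ((δ:ℂ)).im
              simp
            · show ‖(δ:ℂ)‖ ≤ δ
              simp [abs_of_pos hδ]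
            · have : 0 < ((δ:ℂ)).im := h.2.1
              simp at this
          · refine ⟨⟨?_, ?_, ?_⟩, fun h => ?_⟩
            · show 0 ≤ ((δ:ℂ) * I).re
              simp
            · show 0 ≤ ((δ:ℂ) * I).im
              simp [hδ.le]
            · show ‖(δ:ℂ) * I‖ ≤ δ
              simp [abs_of_pos hδ]
            · have : 0 < ((δ:ℂ) * I).re := h.1
              simp at this
        have hWQ : ∀ i, W i ⊆ Qc δ \ Q δ := by
          intro i
          fin_cases i
          · intro z hz
            refine ⟨⟨hz.2.1.le, hz.1.ge, ?_⟩, fun h => absurd hz.1 h.2.1.ne'⟩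
            rw [norm_of_im_zero hz.1 hz.2.1.le]; exact hz.2.2.le
          · intro z hz
            exact ⟨⟨hz.2.1.le, hz.2.2.le, hz.1.le⟩, fun h => absurd hz.1 h.2.2.ne⟩
          · intro z hz
            refine ⟨⟨hz.1.ge, hz.2.1.le, ?_⟩, fun h => absurd hz.1 h.1.ne'⟩
            rw [norm_of_re_zero hz.1 hz.2.1.le]; exact hz.2.2.le
        have key : ∀ z ∈ Qc δ \ Q δ, G z ∈ G '' Qc δ \ G '' Q δ := by
          rintro z ⟨h1, h2⟩
          refine ⟨mem_image_of_mem _ h1, ?_⟩
          rintro ⟨y, hy, hyz⟩
          have := C.inj (hQb hy) (hQcb h1) hyz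
          rw [this] at hy
          exact h2 hy
        apply iUnion_subset
        intro i
        rw [hcl i]
        rintro y (⟨z, hz, rfl⟩ | hy | hy)
        · exact key z (hWQ i hz)
        · rw [hy]; exact key _ (hvQ i)
        · rw [hy]; exact key _ (hvQ (i + 1))

end Pool.Agent.V8H30.OC
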