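import Mathlib

/-!
Arrangements of orthogonal circles in the plane `ℂ`: faces, arcs, triangular faces.
-/

set_option autoImplicit false

open Set Metric Complex

namespace Pool.Agent.V8H30.OC

/-- the circle with centre `K.1` and radius `K.2` -/
def circ (K : ℂ × ℝ) : Set ℂ := sphere K.1 K.2

/-- the circles `K`, `L` intersect orthogonally: they have exactly two common points, and at each of
them the radii (so the tangent lines) are perpendicular -/
def Orth (K L : ℂ × ℝ) : Prop :=
  (∃ p q : ℂ, p ≠ q ∧ circ K ∩ circ L = {p, q}) ∧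
    ∀ p ∈ circ K ∩ circ L, inner ℝ (p - K.1) (p - L.1) = 0

/-- `S` is an arrangement of orthogonal circles -/
structure IsArr (S : Finset (ℂ × ℝ)) : Prop where
  pos : ∀ K ∈ S, 0 < K.2
  pair : ∀ K ∈ S, ∀ L ∈ S, K ≠ L → Disjoint (circ K) (circ L) ∨ Orth K L

/-- the union of the circles -/
def curves (S : Finset (ℂ × ℝ)) : Set ℂ := {x | ∃ K ∈ S, x ∈ circ K}

/-- the crossing points -/
def crossings (S : Finset (ℂ × ℝ)) : Set ℂ :=
  {x | ∃ K ∈ S, ∃ L ∈ S, K ≠ L ∧ x ∈ circ K ∧ x ∈ circ L}

/-- `F` is a face: a connected component of the complement of the union of the circles -/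
def IsFace (S : Finset (ℂ × ℝ)) (F : Set ℂ) : Prop :=
  ∃ x ∈ (curves S)ᶜ, F = connectedComponentIn (curves S)ᶜ x

/-- `γ` is one of the (open) arcs into which the crossing points divide the circles: a connected
component of the union of the circles minus the crossing points -/
def IsArc (S : Finset (ℂ × ℝ)) (γ : Set ℂ) : Prop :=
  ∃ x ∈ curves S \ crossings S, γ = connectedComponentIn (curves S \ crossings S) x

/-- the boundary of `F` consists of exactly three arcs, joined at three crossing points -/
def Triangular (S : Finset (ℂ × ℝ)) (F : Set ℂ) : Prop :=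
  ∃ (γ : Fin 3 → Set ℂ) (p : Fin 3 → ℂ), Function.Injective γ ∧ Function.Injective p ∧
    (∀ i, IsArc S (γ i)) ∧ (∀ i, p i ∈ crossings S) ∧
    (∀ i, closure (γ i) = γ i ∪ {p i, p (i + 1)}) ∧ frontier F = ⋃ i, closure (γ i)

end Pool.Agent.V8H30.OC
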