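import Pool.Agent.V8H30.OC.Local

set_option autoImplicit false

open Set Metric Complex

namespace Pool.Agent.V8H30.OC

theorem Chart.rot {U X : Set ℂ} {G : ℂ → ℂ} {δ δ' : ℝ} (C : Chart U X G δ δ') :
    Chart U X (fun z => G (I * z)) δ δ' := by
  have hb : ∀ z ∈ ball (0:ℂ) δ', I * z ∈ ball (0:ℂ) δ' := by
    intro z hz
    rw [mem_ball_zero_iff] at hz ⊢
    rw [norm_mul, Complex.norm_I, one_mul]; exact hz
  refine ⟨C.pos, C.lt, ?_, ?_, ?_, ?_, ?_⟩
  · exact C.cont.comp (by fun_prop) hb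
  · intro z hz y hy h
    exact mul_left_cancel₀ I_ne_zero (C.inj (hb z hz) (hb y hy) h)
  · intro O hO hOo
    have e : (fun z => G (I * z)) '' O = G '' ((fun z => I * z) '' O) := by
      rw [← image_comp]; rfl
    rw [e]
    apply C.opn
    · rintro _ ⟨z, hz, rfl⟩
      exact hb z (hO hz)
    · exact (Homeomorph.mulLeft₀ I I_ne_zero).isOpenMap O hOo
  · intro z hz
    rw [C.mem _ (hb z hz)]
    simp only [Complex.mul_re, Complex.mul_im, Complex.I_re, Complex.I_im, norm_mul,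
      Complex.norm_I, one_mul, zero_mul, zero_sub, zero_add, neg_eq_zero]
    tauto
  · intro z hz
    rw [C.cr _ (hb z hz)]
    simp only [Complex.mul_re, Complex.mul_im, Complex.I_re, Complex.I_im, norm_mul,
      Complex.norm_I, one_mul, zero_mul, zero_sub, zero_add, neg_eq_zero, mul_eq_zero,
      I_ne_zero, false_or]
    tauto

theorem Chart.rot_pow {U X : Set ℂ} {G : ℂ → ℂ} {δ δ' : ℝ} (C : Chart U X G δ δ') (k : ℕ) :
    Chart U X (fun z => G (I ^ k * z)) δ δ' := by
  induction k with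
  | zero => simpa using C
  | succ k ih =>
    have := ih.rot
    convert this using 3 with z
    rw [pow_succ, mul_assoc]

theorem quad_disj {δ : ℝ} {z y : ℂ} (hz : z ∈ Q δ) (hy : y ∈ Q δ) {k l : ℕ} (hk : k < 4)
    (hl : l < 4) (h : I ^ k * z = I ^ l * y) : k = l := by
  have h1 := hz.1
  have h2 := hz.2.1
  have h3 := hy.1
  have h4 := hy.2.1
  have hre := congrArg Complex.re h
  have him := congrArg Complex.im h
  have e2 : I ^ 2 = -1 := I_sq
  have e3 : I ^ 3 = -I := I_pow_three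
  interval_cases k <;> interval_cases l <;> simp [e2, e3] at hre him ⊢ <;> linarith

theorem circ_nonempty {K : ℂ × ℝ} (h : 0 < K.2) : (circ K).Nonempty := by
  refine ⟨K.1 + K.2, ?_⟩
  rw [mem_circ]
  simp [abs_of_pos h]

theorem three {S : Finset (ℂ × ℝ)} (hS : IsArr S) {K L M : ℂ × ℝ} (hK : K ∈ S) (hL : L ∈ S)
    (hM : M ∈ S) (hne : K ≠ L) {p : ℂ} (h1 : p ∈ circ K) (h2 : p ∈ circ L) (h3 : p ∈ circ M) :
    M = K ∨ M = L := by
  by_contra hcon
  push Not at hcon
  obtain ⟨c1, c2⟩ := hcon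
  have i1 := orth_of_mem hS hK hL hne h1 h2
  have i2 := orth_of_mem hS hK hM c1.symm h1 h3
  have i3 := orth_of_mem hS hL hM c2.symm h2 h3
  have nz : ∀ {N : ℂ × ℝ}, N ∈ S → p ∈ circ N → p - N.1 ≠ 0 := by
    intro N hN hp h
    have h5 := mem_circ.1 hp
    rw [h, norm_zero] at h5
    have := hS.pos N hN
    linarith
  obtain ⟨κ, hκ⟩ := perp (nz hK h1) i1
  obtain ⟨μ, hμ⟩ := perp (nz hK h1) i2
  have hκ0 : κ ≠ 0 := by
    intro h; rw [h] at hκ; simp at hκ; exact nz hL h2 hκ
  have hμ0 : μ ≠ 0 := by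
    intro h; rw [h] at hμ; simp at hμ; exact nz hM h3 hμ
  rw [hκ, hμ, inner_eq_re] at i3
  simp only [Complex.mul_re, Complex.mul_im, Complex.I_re, Complex.I_im, Complex.ofReal_re,
    Complex.ofReal_im] at i3
  have h6 : κ * μ * ((p - K.1).re ^ 2 + (p - K.1).im ^ 2) = 0 := by
    linear_combination i3
  rw [← norm_sq_re_im] at h6
  have h7 : 0 < ‖p - K.1‖ ^ 2 := by
    have := norm_pos_iff.2 (nz hK h1)
    positivity
  rcases mul_eq_zero.1 h6 with h | h
  · rcases mul_eq_zero.1 h with h | h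
    · exact hκ0 h
    · exact hμ0 h
  · linarith

/-- **Main construction.** Small circles around `m` crossing points produce `4 m` triangular
faces. -/
theorem extend {S : Finset (ℂ × ℝ)} (hS : IsArr S) (Y : Finset ℂ)
    (hY : ∀ p ∈ Y, p ∈ crossings S) :
    ∃ S' : Finset (ℂ × ℝ), IsArr S' ∧ S'.card = S.card + Y.card ∧
      ∃ 𝓕 : Finset (Set ℂ), 𝓕.card = 4 * Y.card ∧ ∀ F ∈ 𝓕, IsFace S' F ∧ Triangular S' F := by
  classical
  -- neighbourhoods
  obtain ⟨U, hU, hUd⟩ := Y.finite_toSet.t2_separation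
  set V : ℂ → Set ℂ := fun p => U p ∩ ⋂ M ∈ S.filter (fun M => p ∉ circ M), (circ M)ᶜ with hV
  have hVo : ∀ p, IsOpen (V p) := by
    intro p
    apply (hU p).2.inter
    apply isOpen_biInter_finset
    intro M _
    exact isClosed_sphere.isOpen_compl
  have hVp : ∀ p, p ∈ V p := by
    intro p
    refine ⟨(hU p).1, ?_⟩
    simp only [mem_iInter]
    intro M hM
    exact (Finset.mem_filter.1 hM).2
  have hVM : ∀ p, ∀ M ∈ S, ∀ x ∈ V p, x ∈ circ M → p ∈ circ M := by
    intro p M hM x hx hxM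
    by_contra h
    have h1 := hx.2
    simp only [mem_iInter] at h1
    exact h1 M (Finset.mem_filter.2 ⟨hM, h⟩) hxM
  have hVd : ∀ p ∈ Y, ∀ q ∈ Y, ∀ x, x ∈ V p → x ∈ V q → p = q := by
    intro p hp q hq x h1 h2
    by_contra hne
    exact Set.disjoint_left.1 (hUd hp hq hne) h1.1 h2.1
  have hex := fun p (hp : p ∈ Y) => exists_local hS (hY p hp) (hVo p) (hVp p)
  choose! K L T G δ δ' hloc using hex
  have hTS : ∀ p ∈ Y, T p ∉ S := by
    intro p hp h
    obtain ⟨x, hx⟩ := circ_nonempty (hloc p hp).Tpos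
    exact (hloc p hp).pT (hVM p _ h x ((hloc p hp).TV hx) hx)
  have hTinj : Set.InjOn T Y := by
    intro p hp q hq h
    obtain ⟨x, hx⟩ := circ_nonempty (hloc p hp).Tpos
    exact hVd p hp q hq x ((hloc p hp).TV hx) ((hloc q hq).TV (h ▸ hx))
  have hKL : ∀ p ∈ Y, ∀ M ∈ S, ∀ x ∈ V p, x ∈ circ M → M = K p ∨ M = L p := by
    intro p hp M hM x hx hxM
    have h := hloc p hp
    exact three hS h.hK h.hL hM h.ne h.pK h.pL (hVM p M hM x hx hxM)
  set S' : Finset (ℂ × ℝ) := S ∪ Y.image T with hS'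
  have hdisj : Disjoint S (Y.image T) := by
    rw [Finset.disjoint_left]
    intro M hM h
    obtain ⟨p, hp, rfl⟩ := Finset.mem_image.1 h
    exact hTS p hp hM
  have hcard : S'.card = S.card + Y.card := by
    rw [hS', Finset.card_union_of_disjoint hdisj, Finset.card_image_of_injOn hTinj]
  have hTM : ∀ p ∈ Y, ∀ M ∈ S, Disjoint (circ (T p)) (circ M) ∨ Orth (T p) M := by
    intro p hp M hM
    by_cases h : ∃ x ∈ V p, x ∈ circ M
    · obtain ⟨x, hx, hxM⟩ := h
      right
      rcases hKL p hp M hM x hx hxM with h | h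
      · rw [h]; exact (hloc p hp).TK
      · rw [h]; exact (hloc p hp).TL
    · left
      rw [Set.disjoint_left]
      intro x h1 h2
      exact h ⟨x, (hloc p hp).TV h1, h2⟩
  have hArr : IsArr S' := by
    constructor
    · intro M hM
      rcases Finset.mem_union.1 hM with h | h
      · exact hS.pos M h
      · obtain ⟨p, hp, rfl⟩ := Finset.mem_image.1 h
        exact (hloc p hp).Tpos
    · intro M hM N hN hne
      rcases Finset.mem_union.1 hM with h | h <;> rcases Finset.mem_union.1 hN with h' | h'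
      · exact hS.pair M h N h' hne
      · obtain ⟨q, hq, rfl⟩ := Finset.mem_image.1 h'
        rcases hTM q hq M h with h1 | h1
        · exact Or.inl h1.symm
        · exact Or.inr (orth_symm h1)
      · obtain ⟨p, hp, rfl⟩ := Finset.mem_image.1 h
        exact hTM p hp N h'
      · obtain ⟨p, hp, rfl⟩ := Finset.mem_image.1 h
        obtain ⟨q, hq, rfl⟩ := Finset.mem_image.1 h'
        left
        rw [Set.disjoint_left]
        intro x h1 h2
        exact hne (by rw [hVd p hp q hq x ((hloc p hp).TV h1) ((hloc q hq).TV h2)])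
  -- classification of the circles through points of the chart
  have hcls : ∀ p ∈ Y, ∀ z ∈ ball (0:ℂ) (δ' p), ∀ M ∈ S', G p z ∈ circ M →
      (M = K p ∧ z.re = 0) ∨ (M = L p ∧ z.im = 0) ∨ (M = T p ∧ ‖z‖ = δ p) := by
    intro p hp z hz M hM hx
    have h := hloc p hp
    rcases Finset.mem_union.1 hM with h1 | h1
    · rcases hKL p hp M h1 _ (h.sub z hz) hx with h2 | h2
      · left; exact ⟨h2, (h.mK z hz).1 (h2 ▸ hx)⟩
      · right; left; exact ⟨h2, (h.mL z hz).1 (h2 ▸ hx)⟩
    · obtain ⟨q, hq, rfl⟩ := Finset.mem_image.1 h1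
      have hpq := hVd p hp q hq _ (h.sub z hz) ((hloc q hq).TV hx)
      subst hpq
      right; right
      exact ⟨rfl, (h.mT z hz).1 hx⟩
  have hchart : ∀ p ∈ Y, Chart (curves S') (crossings S') (G p) (δ p) (δ' p) := by
    intro p hp
    have h := hloc p hp
    have mK' : K p ∈ S' := Finset.mem_union_left _ h.hK
    have mL' : L p ∈ S' := Finset.mem_union_left _ h.hL
    have mT' : T p ∈ S' := Finset.mem_union_right _ (Finset.mem_image_of_mem _ hp)
    have hKT : K p ≠ T p := fun e => hTS p hp (e ▸ h.hK)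
    have hLT : L p ≠ T p := fun e => hTS p hp (e ▸ h.hL)
    refine ⟨h.pos, h.lt, h.cont, h.inj, h.opn, ?_, ?_⟩
    · intro z hz
      constructor
      · rintro ⟨M, hM, hx⟩
        rcases hcls p hp z hz M hM hx with h1 | h1 | h1
        · exact Or.inl h1.2
        · exact Or.inr (Or.inl h1.2)
        · exact Or.inr (Or.inr h1.2)
      · rintro (h1 | h1 | h1)
        · exact ⟨K p, mK', (h.mK z hz).2 h1⟩
        · exact ⟨L p, mL', (h.mL z hz).2 h1⟩
        · exact ⟨T p, mT', (h.mT z hz).2 h1⟩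
    · intro z hz
      constructor
      · rintro ⟨M, hM, N, hN, hne, hx, hx'⟩
        rcases hcls p hp z hz M hM hx with h1 | h1 | h1 <;>
          rcases hcls p hp z hz N hN hx' with h2 | h2 | h2
        · exact absurd (h1.1.trans h2.1.symm) hne
        · left; exact Complex.ext h1.2 h2.2
        · right; exact ⟨h2.2, Or.inl h1.2⟩
        · left; exact Complex.ext h2.2 h1.2
        · exact absurd (h1.1.trans h2.1.symm) hne
        · right; exact ⟨h2.2, Or.inr h1.2⟩
        · right; exact ⟨h1.2, Or.inl h2.2⟩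
        · right; exact ⟨h1.2, Or.inr h2.2⟩
        · exact absurd (h1.1.trans h2.1.symm) hne
      · rintro (h1 | ⟨h1, h2 | h2⟩)
        · refine ⟨K p, mK', L p, mL', h.ne, (h.mK z hz).2 (by rw [h1]; rfl),
            (h.mL z hz).2 (by rw [h1]; rfl)⟩
        · exact ⟨K p, mK', T p, mT', hKT, (h.mK z hz).2 h2, (h.mT z hz).2 h1⟩
        · exact ⟨L p, mL', T p, mT', hLT, (h.mL z hz).2 h2, (h.mT z hz).2 h1⟩
  have hQne : ∀ p ∈ Y, ∃ z, z ∈ Q (δ p) := by
    intro p hp
    have h0 := (hloc p hp).pos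
    refine ⟨((δ p / 4 : ℝ) : ℂ) * (1 + I), by simp [h0], by simp [h0], ?_⟩
    calc ‖((δ p / 4 : ℝ) : ℂ) * (1 + I)‖ ≤ |(((δ p / 4 : ℝ) : ℂ) * (1 + I)).re| +
          |(((δ p / 4 : ℝ) : ℂ) * (1 + I)).im| := Complex.norm_le_abs_re_add_abs_im _
      _ = δ p / 4 + δ p / 4 := by
        have h4 : |δ p / 4| = δ p / 4 := abs_of_pos (by positivity)
        simp [h4]
      _ < δ p := by linarith
  have hQb : ∀ p ∈ Y, ∀ z ∈ Q (δ p), ∀ k : ℕ, I ^ k * z ∈ ball (0:ℂ) (δ' p) := by
    intro p hp z hz k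
    have h1 := (hloc p hp).lt
    rw [mem_ball_zero_iff, norm_mul, norm_pow, Complex.norm_I, one_pow, one_mul]
    linarith [hz.2.2]
  refine ⟨S', hArr, hcard, (Y ×ˢ Finset.range 4).image
    (fun x => (fun z => G x.1 (I ^ x.2 * z)) '' Q (δ x.1)), ?_, ?_⟩
  · rw [Finset.card_image_of_injOn, Finset.card_product, Finset.card_range, mul_comm]
    rintro ⟨p, k⟩ hpk ⟨q, l⟩ hql he
    simp only [Finset.coe_product, mem_prod, Finset.mem_coe, Finset.mem_range] at hpk hql
    obtain ⟨hp, hk⟩ := hpk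
    obtain ⟨hq, hl⟩ := hql
    simp only at he
    obtain ⟨z, hz⟩ := hQne p hp
    have h1 : G p (I ^ k * z) ∈ (fun z => G q (I ^ l * z)) '' Q (δ q) := by
      rw [← he]; exact ⟨z, hz, rfl⟩
    obtain ⟨y, hy, hyz⟩ := h1
    simp only at hyz
    have hpq : p = q := by
      apply hVd p hp q hq (G p (I ^ k * z))
      · exact (hloc p hp).sub _ (hQb p hp z hz k)
      · rw [← hyz]; exact (hloc q hq).sub _ (hQb q hq y hy l)
    subst hpq
    have h2 := (hloc p hp).inj (hQb p hp y hy l) (hQb p hp z hz k) hyz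
    rw [quad_disj hz hy hk hl h2.symm]
  · intro F hF
    obtain ⟨⟨p, k⟩, hpk, rfl⟩ := Finset.mem_image.1 hF
    have hp := (Finset.mem_product.1 hpk).1
    exact sector ((hchart p hp).rot_pow k)

end Pool.Agent.V8H30.OC
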