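import Pool.Agent.V8H30.OC.Ring

set_option autoImplicit false

open Set Metric Complex

namespace Pool.Agent.V8H30.OC

/-- there is an arrangement of `n` orthogonal circles with at least `t` triangular faces -/
def AtLeast (n t : ℕ) : Prop :=
  ∃ S : Finset (ℂ × ℝ), IsArr S ∧ S.card = n ∧
    ∃ 𝓕 : Finset (Set ℂ), 𝓕.card = t ∧ ∀ F ∈ 𝓕, IsFace S F ∧ Triangular S F

section wrap

variable {m : ℕ} {x κ r lam w : ℝ}

theorem ring_orth_same (P : Par m x κ r lam w) (j : ℕ) {k k' : ℕ} {D : ℕ}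
    (hD : D = 2 ∨ D = 2 * m - 2)
    (h : (2 * (k:ℤ) + j) - (2 * k' + j) = D ∨ (2 * (k:ℤ) + j) - (2 * k' + j) = -D) :
    OrthP (cen m lam j k, lam ^ j * r) (cen m lam j k', lam ^ j * r) := by
  unfold OrthP
  simp only
  rw [cen_dist, cos_diff D h, cos_two P hD]
  have hr := P.hr
  calc (lam ^ j) ^ 2 + (lam ^ j) ^ 2 - 2 * lam ^ j * lam ^ j * κ
      = 2 * (lam ^ j) ^ 2 * (1 - κ) := by ring
    _ = (lam ^ j * r) ^ 2 + (lam ^ j * r) ^ 2 := by rw [← hr]; ring

theorem ring_orth_next (P : Par m x κ r lam w) (j : ℕ) {k k' : ℕ} {D : ℕ}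
    (hD : D = 1 ∨ D = 2 * m - 1)
    (h : (2 * (k:ℤ) + j) - (2 * k' + (j + 1 : ℕ)) = D ∨
      (2 * (k:ℤ) + j) - (2 * k' + (j + 1 : ℕ)) = -D) :
    OrthP (cen m lam j k, lam ^ j * r) (cen m lam (j + 1) k', lam ^ (j + 1) * r) := by
  unfold OrthP
  simp only
  rw [cen_dist, cos_diff D h, cos_one P hD]
  have hr := P.hr
  have hl := P.hl
  rw [pow_succ]
  set u := lam ^ j with hu'
  calc u ^ 2 + (u * lam) ^ 2 - 2 * u * (u * lam) * x
      = u ^ 2 * (1 + lam ^ 2) - u ^ 2 * (2 * lam * x) := by ring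
    _ = u ^ 2 * (1 + lam ^ 2) - u ^ 2 * ((1 + lam ^ 2) * κ) := by rw [hl]
    _ = u ^ 2 * (1 + lam ^ 2) * (1 - κ) := by ring
    _ = (u * r) ^ 2 + (u * lam * r) ^ 2 := by rw [← hr]; ring

end wrap

/-- cyclic successor on `1, ..., m` -/
def nxt (m k : ℕ) : ℕ := if k = m then 1 else k + 1

/-- the orthogonal pairs of the ring arrangement -/
def pairs (m b : ℕ) : Finset ((ℕ × ℕ) × (ℕ × ℕ)) :=
  ((Finset.range (b + 1) ×ˢ Finset.Icc 1 m).image (fun q => ((q.1, q.2), (q.1, nxt m q.2))) ∪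
   (Finset.range (b + 1) ×ˢ Finset.Icc 1 m).image (fun q => ((q.1, 0), (q.1, q.2)))) ∪
  ((Finset.range b ×ˢ Finset.Icc 1 m).image (fun q => ((q.1, q.2), (q.1 + 1, q.2))) ∪
   (Finset.range b ×ˢ Finset.Icc 1 m).image (fun q => ((q.1, nxt m q.2), (q.1 + 1, q.2))))

theorem mem_pairs {m b : ℕ} {e : (ℕ × ℕ) × (ℕ × ℕ)} (h : e ∈ pairs m b) :
    ∃ j k, 1 ≤ k ∧ k ≤ m ∧
      ((j ≤ b ∧ e = ((j, k), (j, nxt m k))) ∨ (j ≤ b ∧ e = ((j, 0), (j, k))) ∨
       (j < b ∧ e = ((j, k), (j + 1, k))) ∨ (j < b ∧ e = ((j, nxt m k), (j + 1, k)))) := by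
  unfold pairs at h
  simp only [Finset.mem_union, Finset.mem_image, Finset.mem_product, Finset.mem_range,
    Finset.mem_Icc] at h
  rcases h with (⟨q, ⟨h1, h2, h3⟩, h4⟩ | ⟨q, ⟨h1, h2, h3⟩, h4⟩) |
    (⟨q, ⟨h1, h2, h3⟩, h4⟩ | ⟨q, ⟨h1, h2, h3⟩, h4⟩)
  · exact ⟨q.1, q.2, h2, h3, Or.inl ⟨by omega, h4.symm⟩⟩
  · exact ⟨q.1, q.2, h2, h3, Or.inr (Or.inl ⟨by omega, h4.symm⟩)⟩
  · exact ⟨q.1, q.2, h2, h3, Or.inr (Or.inr (Or.inl ⟨by omega, h4.symm⟩))⟩
  · exact ⟨q.1, q.2, h2, h3, Or.inr (Or.inr (Or.inr ⟨by omega, h4.symm⟩))⟩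

theorem card_pairs {m b : ℕ} (hm : 3 ≤ m) :
    (pairs m b).card = 2 * (m * (b + 1)) + 2 * (m * b) := by
  unfold pairs
  rw [Finset.card_union_of_disjoint, Finset.card_union_of_disjoint,
    Finset.card_union_of_disjoint, Finset.card_image_of_injective, Finset.card_image_of_injective,
    Finset.card_image_of_injective, Finset.card_image_of_injective]
  · simp only [Finset.card_product, Finset.card_range, Nat.card_Icc, Nat.add_sub_cancel]
    ring
  · intro q q' h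
    simp only [Prod.mk.injEq] at h
    exact Prod.ext h.1.1 h.2.2
  · intro q q' h
    simp only [Prod.mk.injEq] at h
    exact Prod.ext h.1.1 h.1.2
  · intro q q' h
    simp only [Prod.mk.injEq] at h
    exact Prod.ext h.1.1 h.2.2
  · intro q q' h
    simp only [Prod.mk.injEq] at h
    exact Prod.ext h.1.1 h.1.2
  · rw [Finset.disjoint_left]
    intro e h1 h2
    simp only [Finset.mem_image, Finset.mem_product, Finset.mem_range, Finset.mem_Icc] at h1 h2
    obtain ⟨q, ⟨-, -, -⟩, rfl⟩ := h1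
    obtain ⟨q', ⟨-, h3, h4⟩, h5⟩ := h2
    simp only [Prod.mk.injEq] at h5
    unfold nxt at h5
    split_ifs at h5 <;> omega
  · rw [Finset.disjoint_left]
    intro e h1 h2
    simp only [Finset.mem_image, Finset.mem_product, Finset.mem_range, Finset.mem_Icc] at h1 h2
    obtain ⟨q, ⟨-, h6, h7⟩, rfl⟩ := h1
    obtain ⟨q', ⟨-, h3, h4⟩, h5⟩ := h2
    simp only [Prod.mk.injEq] at h5
    omega
  · rw [Finset.disjoint_left]
    intro e h1 h2
    simp only [Finset.mem_union, Finset.mem_image, Finset.mem_product, Finset.mem_range,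
      Finset.mem_Icc] at h1 h2
    rcases h1 with ⟨q, -, rfl⟩ | ⟨q, -, rfl⟩ <;> rcases h2 with ⟨q', -, h5⟩ | ⟨q', -, h5⟩ <;>
      simp only [Prod.mk.injEq] at h5 <;> omega

/-- an arrangement of `b + 1` rings of `m` circles and `b + 1` central circles -/
theorem ring_exists {m : ℕ} (hm : 5 ≤ m) (b : ℕ) :
    ∃ S : Finset (ℂ × ℝ), IsArr S ∧ S.card = (b + 1) * (m + 1) ∧
      ∃ Y : Finset ℂ, Y.card = 4 * m * (2 * b + 1) ∧ ∀ p ∈ Y, p ∈ crossings S := by
  obtain ⟨x, κ, r, lam, w, P⟩ := exists_par hm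
  have hpos : ∀ a ∈ Finset.range (b + 1) ×ˢ Finset.range (m + 1), 0 < (cc m r lam w a).2 := by
    intro a _
    have hp : 0 < lam ^ a.1 := pow_pos P.l0 _
    unfold cc
    split_ifs
    · exact mul_pos hp P.w0
    · exact mul_pos hp P.r0
  have hrel : ∀ a ∈ Finset.range (b + 1) ×ˢ Finset.range (m + 1),
      ∀ c ∈ Finset.range (b + 1) ×ˢ Finset.range (m + 1), a ≠ c →
      OrthP (cc m r lam w a) (cc m r lam w c) ∨ DisP (cc m r lam w a) (cc m r lam w c) := by
    intro a ha c hc hne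
    simp only [Finset.mem_product, Finset.mem_range] at ha hc
    unfold cc
    by_cases h5 : a.2 = 0
    · by_cases h6 : c.2 = 0
      · rw [if_pos h5, if_pos h6]
        right
        apply centres_rel P
        intro h7
        exact hne (Prod.ext h7 (h5.trans h6.symm))
      · rw [if_pos h5, if_neg h6]
        exact centre_rel P _ _ _
    · by_cases h6 : c.2 = 0
      · rw [if_neg h5, if_pos h6]
        rcases centre_rel P c.1 a.1 a.2 with h | h
        · exact Or.inl h.symm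
        · exact Or.inr h.symm
      · rw [if_neg h5, if_neg h6]
        rcases le_total a.1 c.1 with h | h
        · exact ring_rel P (by omega) (by omega) h hne
        · rcases ring_rel P (j := c.1) (k := c.2) (j' := a.1) (k' := a.2) (by omega) (by omega) h
            (fun h => hne (by rw [← Prod.eta a, ← Prod.eta c, h])) with h | h
          · exact Or.inl h.symm
          · exact Or.inr h.symm
  have hE : ∀ e ∈ pairs m b, e.1 ∈ Finset.range (b + 1) ×ˢ Finset.range (m + 1) ∧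
      e.2 ∈ Finset.range (b + 1) ×ˢ Finset.range (m + 1) ∧ e.1 ≠ e.2 ∧
      OrthP (cc m r lam w e.1) (cc m r lam w e.2) := by
    intro e he
    obtain ⟨j, k, hk1, hk2, h⟩ := mem_pairs he
    have hn1 : 1 ≤ nxt m k := by unfold nxt; split_ifs <;> omega
    have hn2 : nxt m k ≤ m := by unfold nxt; split_ifs <;> omega
    have hn3 : nxt m k ≠ k := by unfold nxt; split_ifs <;> omega
    rcases h with ⟨hj, rfl⟩ | ⟨hj, rfl⟩ | ⟨hj, rfl⟩ | ⟨hj, rfl⟩
    · simp only [Finset.mem_product, Finset.mem_range, ne_eq, Prod.mk.injEq]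
      refine ⟨by omega, by omega, by omega, ?_⟩
      unfold cc
      simp only
      rw [if_neg (by omega), if_neg (by omega)]
      unfold nxt
      split_ifs with h5
      · apply ring_orth_same P j (D := 2 * m - 2) (Or.inr rfl)
        left
        rw [h5, Nat.cast_sub (by omega)]
        push_cast
        ring
      · apply ring_orth_same P j (D := 2) (Or.inl rfl)
        right
        push_cast
        ring
    · simp only [Finset.mem_product, Finset.mem_range, ne_eq, Prod.mk.injEq]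
      refine ⟨by omega, by omega, by omega, ?_⟩
      unfold cc
      simp only
      rw [if_pos trivial, if_neg (by omega)]
      exact centre_orth P _ _
    · simp only [Finset.mem_product, Finset.mem_range, ne_eq, Prod.mk.injEq]
      refine ⟨by omega, by omega, by omega, ?_⟩
      unfold cc
      simp only
      rw [if_neg (by omega), if_neg (by omega)]
      apply ring_orth_next P j (D := 1) (Or.inl rfl)
      right
      push_cast
      ring
    · simp only [Finset.mem_product, Finset.mem_range, ne_eq, Prod.mk.injEq]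
      refine ⟨by omega, by omega, by omega, ?_⟩
      unfold cc
      simp only
      rw [if_neg (by omega), if_neg (by omega)]
      unfold nxt
      split_ifs with h5
      · apply ring_orth_next P j (D := 2 * m - 1) (Or.inr rfl)
        right
        rw [h5, Nat.cast_sub (by omega)]
        push_cast
        ring
      · apply ring_orth_next P j (D := 1) (Or.inl rfl)
        left
        push_cast
        ring
  have hE2 : ∀ e ∈ pairs m b, ∀ f ∈ pairs m b, ¬ (e.1 = f.2 ∧ e.2 = f.1) := by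
    intro e he f hf
    obtain ⟨j, k, hk1, hk2, h⟩ := mem_pairs he
    obtain ⟨j', k', hk1', hk2', h'⟩ := mem_pairs hf
    have hn : (k = m ∧ nxt m k = 1) ∨ (k ≠ m ∧ nxt m k = k + 1) := by
      unfold nxt; split_ifs with hh
      · exact Or.inl ⟨hh, rfl⟩
      · exact Or.inr ⟨hh, rfl⟩
    have hn' : (k' = m ∧ nxt m k' = 1) ∨ (k' ≠ m ∧ nxt m k' = k' + 1) := by
      unfold nxt; split_ifs with hh
      · exact Or.inl ⟨hh, rfl⟩
      · exact Or.inr ⟨hh, rfl⟩
    rintro ⟨h5, h6⟩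
    rcases h with ⟨hj, rfl⟩ | ⟨hj, rfl⟩ | ⟨hj, rfl⟩ | ⟨hj, rfl⟩ <;>
      rcases h' with ⟨hj', rfl⟩ | ⟨hj', rfl⟩ | ⟨hj', rfl⟩ | ⟨hj', rfl⟩ <;>
      simp only [Prod.mk.injEq] at h5 h6 <;> omega
  obtain ⟨S, h1, h2, Y, h3, h4⟩ := many (cc m r lam w) _ hpos hrel (pairs m b) hE hE2
  refine ⟨S, h1, ?_, Y, ?_, h4⟩
  · rw [h2]; simp
  · rw [h3, card_pairs (by omega)]; ring

theorem fill {N X y : ℕ} (hy : y ≤ X)
    (h : ∃ S : Finset (ℂ × ℝ), IsArr S ∧ S.card = N ∧
      ∃ Y : Finset ℂ, Y.card = X ∧ ∀ p ∈ Y, p ∈ crossings S) : AtLeast (N + y) (4 * y) := by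
  obtain ⟨S, hS, hN, Y, hY, hc⟩ := h
  obtain ⟨Z, hZ, hZc⟩ := Finset.exists_subset_card_eq (show y ≤ Y.card by omega)
  obtain ⟨S', h1, h2, 𝓕, h3, h4⟩ := extend hS Z (fun p hp => hc p (hZ hp))
  exact ⟨S', h1, by rw [h2, hN, hZc], 𝓕, by rw [h3, hZc], h4⟩

theorem ring_fill {m : ℕ} (hm : 5 ≤ m) {b y : ℕ} (hy : y ≤ 4 * m * (2 * b + 1)) :
    AtLeast ((b + 1) * (m + 1) + y) (4 * y) := fill hy (ring_exists hm b)

theorem AtLeast.mono {n t t' : ℕ} (h : AtLeast n t) (ht : t' ≤ t) : AtLeast n t' := by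
  obtain ⟨S, h1, h2, 𝓕, h3, h4⟩ := h
  obtain ⟨𝓖, hG, hGc⟩ := Finset.exists_subset_card_eq (show t' ≤ 𝓕.card by omega)
  exact ⟨S, h1, h2, 𝓖, hGc, fun F hF => h4 F (hG hF)⟩

/-- more than `3 n - 3` triangular faces for all `n ≥ 22` -/
theorem more {n : ℕ} (hn : 22 ≤ n) : AtLeast n (3 * n - 2) := by
  obtain ⟨m, hm, h1, h2⟩ : ∃ m, 5 ≤ m ∧ 4 * m + 2 ≤ n ∧ n ≤ 5 * m + 1 := by
    refine ⟨(n - 2) / 4, by omega, by omega, by omega⟩
  have h3 := ring_fill hm (b := 0) (y := n - (m + 1)) (by omega)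
  have e : (0 + 1) * (m + 1) + (n - (m + 1)) = n := by omega
  rw [e] at h3
  exact h3.mono (by omega)

/-- the asymptotic bound -/
theorem asym {n : ℕ} (hn : 170 ≤ n) : ∃ t : ℕ,
    (32 / 9 : ℝ) * n - (40 / 9) * Real.sqrt n - 100 / 9 ≤ t ∧ AtLeast n t := by
  obtain ⟨b, hb1, hb2⟩ : ∃ b : ℕ, (3 * b + 1) ^ 2 < n ∧ n ≤ (3 * (b + 1) + 1) ^ 2 := by
    have hex : ∃ b : ℕ, n ≤ (3 * (b + 1) + 1) ^ 2 := ⟨n, by nlinarith⟩
    classical
    refine ⟨Nat.find hex, ?_, Nat.find_spec hex⟩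
    rcases Nat.eq_zero_or_pos (Nat.find hex) with h | h
    · rw [h]; omega
    · have := Nat.find_min hex (show Nat.find hex - 1 < Nat.find hex by omega)
      rw [show Nat.find hex - 1 + 1 = Nat.find hex by omega] at this
      omega
  have hb : 4 ≤ b := by
    by_contra hcon
    push Not at hcon
    have : (3 * (b + 1) + 1) ^ 2 ≤ (3 * (3 + 1) + 1) ^ 2 := Nat.pow_le_pow_left (by omega) 2
    omega
  have hle : (b + 1 + 1) * (b + 1 + 1) ≤ n := by nlinarith
  have h3 := ring_fill (m := b + 1) (by omega) (b := b + 1) (y := n - (b + 1 + 1) * (b + 1 + 1)) (by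
    have e : (3 * (b + 1) + 1) ^ 2 =
      (b + 1 + 1) * (b + 1 + 1) + 4 * (b + 1) * (2 * (b + 1) + 1) := by ring
    omega)
  rw [show (b + 1 + 1) * (b + 1 + 1) + (n - (b + 1 + 1) * (b + 1 + 1)) = n by omega] at h3
  refine ⟨_, ?_, h3⟩
  have hs : 3 * (b : ℝ) + 1 ≤ Real.sqrt n := by
    apply Real.le_sqrt_of_sq_le
    exact_mod_cast hb1.le
  rw [Nat.cast_mul, Nat.cast_sub hle]
  push_cast
  have hsq : Real.sqrt n ^ 2 = n := Real.sq_sqrt (Nat.cast_nonneg n)
  set s := Real.sqrt n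
  have h5 : 3 * ((b : ℝ) + 1 + 1) ≤ s + 5 := by linarith
  have h6 : (3 * ((b : ℝ) + 1 + 1)) ^ 2 ≤ (s + 5) ^ 2 := pow_le_pow_left₀ (by positivity) h5 2
  nlinarith

end Pool.Agent.V8H30.OC
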