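import Pool.Agent.V8H30.OC.Base

set_option autoImplicit false

open Set Metric Complex

namespace Pool.Agent.V8H30.OC

theorem mem_circ {K : ℂ × ℝ} {x : ℂ} : x ∈ circ K ↔ ‖x - K.1‖ = K.2 := by
  simp [circ]

theorem inner_zero {a b x : ℂ} {r s : ℝ} (hx : ‖x - a‖ = r) (hy : ‖x - b‖ = s)
    (h : ‖a - b‖ ^ 2 = r ^ 2 + s ^ 2) : inner ℝ (x - a) (x - b) = 0 := by
  have h1 := norm_sub_sq_real (x - a) (x - b)
  have e : x - a - (x - b) = -(a - b) := by ring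
  rw [e, norm_neg, h, hx, hy] at h1
  linarith

theorem orth_of_dist {a b : ℂ} {r s : ℝ} (hr : 0 < r) (hs : 0 < s)
    (h : ‖a - b‖ ^ 2 = r ^ 2 + s ^ 2) : Orth (a, r) (b, s) := by
  set D : ℂ := b - a with hD
  set N : ℝ := r ^ 2 + s ^ 2 with hN
  have hNpos : 0 < N := by positivity
  have hDN : D.re ^ 2 + D.im ^ 2 = N := by
    rw [← norm_sq_re_im, ← h, hD, norm_sub_rev]
  have hD0 : D ≠ 0 := by
    intro h0
    rw [h0] at hDN
    simp at hDN
    linarith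
  have hmem : ∀ w : ℂ, a + D * w ∈ circ (a, r) ∩ circ (b, s) ↔
      w.re = r ^ 2 / N ∧ (w.im = r * s / N ∨ w.im = -(r * s / N)) := by
    intro w
    have e1 : ‖a + D * w - a‖ ^ 2 = N * (w.re ^ 2 + w.im ^ 2) := by
      rw [add_sub_cancel_left, norm_mul, mul_pow, norm_sq_re_im, norm_sq_re_im, hDN]
    have e2 : ‖a + D * w - b‖ ^ 2 = N * ((w.re - 1) ^ 2 + w.im ^ 2) := by
      have : a + D * w - b = D * (w - 1) := by rw [hD]; ring
      rw [this, norm_mul, mul_pow, norm_sq_re_im, norm_sq_re_im, hDN]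
      simp
    have f1 : a + D * w ∈ circ (a, r) ↔ N * (w.re ^ 2 + w.im ^ 2) = r ^ 2 := by
      rw [mem_circ, ← e1]
      exact (pow_left_inj₀ (norm_nonneg _) hr.le two_ne_zero).symm
    have f2 : a + D * w ∈ circ (b, s) ↔ N * ((w.re - 1) ^ 2 + w.im ^ 2) = s ^ 2 := by
      rw [mem_circ, ← e2]
      exact (pow_left_inj₀ (norm_nonneg _) hs.le two_ne_zero).symm
    rw [mem_inter_iff, f1, f2]
    constructor
    · rintro ⟨g1, g2⟩
      have g3 : w.re = r ^ 2 / N := by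
        rw [eq_div_iff hNpos.ne']
        have : N * (2 * w.re - 1) = r ^ 2 - s ^ 2 := by nlinarith
        have : 2 * (N * w.re) = 2 * r ^ 2 := by linarith
        linarith
      refine ⟨g3, ?_⟩
      have g4 : w.im ^ 2 = (r * s / N) ^ 2 := by
        rw [g3] at g1
        have : w.im ^ 2 = r ^ 2 / N - (r ^ 2 / N) ^ 2 := by
          field_simp at g1 ⊢
          nlinarith
        rw [this]
        field_simp
        rw [hN]; ring
      exact sq_eq_sq_iff_eq_or_eq_neg.1 g4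
    · rintro ⟨g1, g2⟩
      have g4 : w.im ^ 2 = (r * s / N) ^ 2 := sq_eq_sq_iff_eq_or_eq_neg.2 g2
      rw [g4, g1]
      constructor
      · field_simp; rw [hN]
      · field_simp; rw [hN]; ring
  have hdiv : ∀ x : ℂ, a + D * ((x - a) / D) = x := by
    intro x; field_simp; ring
  refine ⟨⟨a + D * ⟨r ^ 2 / N, r * s / N⟩, a + D * ⟨r ^ 2 / N, -(r * s / N)⟩, ?_, ?_⟩, ?_⟩
  · intro he
    have h1 := mul_left_cancel₀ hD0 (add_left_cancel he)
    have h2 := congrArg Complex.im h1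
    simp only at h2
    have : 0 < r * s / N := by positivity
    linarith
  · ext x
    have hx := hmem ((x - a) / D)
    rw [hdiv] at hx
    rw [hx]
    constructor
    · rintro ⟨g1, g2 | g2⟩
      · left
        rw [← hdiv x]
        congr 2
        exact Complex.ext g1 g2
      · right
        rw [mem_singleton_iff, ← hdiv x]
        congr 2
        exact Complex.ext g1 g2
    · rintro (g | g)
      · have : (x - a) / D = ⟨r ^ 2 / N, r * s / N⟩ := by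
          rw [g]; field_simp; ring
        rw [this]; exact ⟨rfl, Or.inl rfl⟩
      · rw [mem_singleton_iff] at g
        have : (x - a) / D = ⟨r ^ 2 / N, -(r * s / N)⟩ := by
          rw [g]; field_simp; ring
        rw [this]; exact ⟨rfl, Or.inr rfl⟩
  · rintro x ⟨h1, h2⟩
    exact inner_zero (mem_circ.1 h1) (mem_circ.1 h2) h

/-! ### the Möbius chart -/

section chart

variable (κ : ℝ)

/-- `B = κ + i` -/
noncomputable def B : ℂ := κ + I
/-- `B' = κ - i` -/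
noncomputable def B' : ℂ := κ - I

theorem B_ne : B κ ≠ 0 := by
  intro h
  have := congrArg Complex.im h
  simp [B] at this

theorem B'_ne : B' κ ≠ 0 := by
  intro h
  have := congrArg Complex.im h
  simp [B'] at this

theorem normB : ‖B κ‖ ^ 2 = κ ^ 2 + 1 := by
  rw [norm_sq_re_im]; simp [B]

theorem normB' : ‖B' κ‖ ^ 2 = κ ^ 2 + 1 := by
  rw [norm_sq_re_im]; simp [B']

theorem normBB' : ‖B κ‖ = ‖B' κ‖ := by
  apply (pow_left_inj₀ (norm_nonneg _) (norm_nonneg _) two_ne_zero).1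
  rw [normB, normB']

/-- `g(z) = 2 κ z / ((κ - i)(κ + i - z))` -/
noncomputable def g (z : ℂ) : ℂ := 2 * κ * z / (B' κ * (B κ - z))

/-- `A' = 2 κ / (κ - i)` -/
noncomputable def A' : ℂ := 2 * κ / B' κ

theorem A'_ne (hκ : κ ≠ 0) : A' κ ≠ 0 := by
  unfold A'
  have : (κ : ℂ) ≠ 0 := by exact_mod_cast hκ
  exact div_ne_zero (mul_ne_zero two_ne_zero this) (B'_ne κ)

theorem normA' : ‖A' κ‖ ^ 2 = 4 * κ ^ 2 / (κ ^ 2 + 1) := by
  unfold A'
  rw [norm_div, div_pow, normB', norm_mul, Complex.norm_real, mul_pow]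
  norm_num

theorem A'_eq : A' κ = ⟨2 * κ ^ 2 / (κ ^ 2 + 1), 2 * κ / (κ ^ 2 + 1)⟩ := by
  have h0 : (κ ^ 2 + 1 : ℝ) ≠ 0 := by positivity
  unfold A'
  rw [div_eq_iff (B'_ne κ)]
  apply Complex.ext
  · simp [B']
    field_simp
  · simp [B']
    field_simp
    ring

variable {κ}

theorem one_add_g {z : ℂ} (hz : z ≠ B κ) : 1 + g κ z = B κ * (B' κ + z) / (B' κ * (B κ - z)) := by
  have h1 : B κ - z ≠ 0 := sub_ne_zero.2 hz.symm
  have h2 := B'_ne κ
  unfold g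
  rw [eq_div_iff (mul_ne_zero h2 h1), add_mul, div_mul_cancel₀ _ (mul_ne_zero h2 h1)]
  unfold B B'
  ring

theorem kap_add_g {z : ℂ} (hz : z ≠ B κ) :
    I * κ + g κ z = κ * I * B κ * (B' κ - z) / (B' κ * (B κ - z)) := by
  have h1 : B κ - z ≠ 0 := sub_ne_zero.2 hz.symm
  have h2 := B'_ne κ
  unfold g
  rw [eq_div_iff (mul_ne_zero h2 h1), add_mul, div_mul_cancel₀ _ (mul_ne_zero h2 h1)]
  unfold B B'
  linear_combination (2 * κ * z : ℂ) * I_sq

theorem norm_one_add {z : ℂ} (hκ : κ ≠ 0) (hz : z ≠ B κ) : ‖1 + g κ z‖ = 1 ↔ z.re = 0 := by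
  have h1 : B κ - z ≠ 0 := sub_ne_zero.2 hz.symm
  have h1' : 0 < ‖B κ - z‖ := norm_pos_iff.2 h1
  have h2 : 0 < ‖B' κ‖ := norm_pos_iff.2 (B'_ne κ)
  rw [one_add_g hz, norm_div, norm_mul, norm_mul, normBB', mul_div_mul_left _ _ h2.ne',
    div_eq_one_iff_eq h1'.ne', ← pow_left_inj₀ (norm_nonneg _) (norm_nonneg _) two_ne_zero,
    norm_sq_re_im, norm_sq_re_im]
  simp only [B, B', Complex.add_re, Complex.sub_re, Complex.add_im, Complex.sub_im,
    Complex.ofReal_re, Complex.ofReal_im, Complex.I_re, Complex.I_im]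
  constructor
  · intro h
    have : κ * z.re = 0 := by linarith
    exact (mul_eq_zero.1 this).resolve_left hκ
  · intro h; rw [h]; ring

theorem norm_kap_add {z : ℂ} (hκ : κ ≠ 0) (hz : z ≠ B κ) :
    ‖I * κ + g κ z‖ = |κ| ↔ z.im = 0 := by
  have h1 : B κ - z ≠ 0 := sub_ne_zero.2 hz.symm
  have h1' : 0 < ‖B κ - z‖ := norm_pos_iff.2 h1
  have h2 : 0 < ‖B' κ‖ := norm_pos_iff.2 (B'_ne κ)
  have h3 : 0 < |κ| := abs_pos.2 hκ
  have e : ‖I * κ + g κ z‖ = |κ| * (‖B' κ - z‖ / ‖B κ - z‖) := by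
    rw [kap_add_g hz, norm_div, norm_mul, norm_mul, norm_mul, norm_mul, normBB', Complex.norm_real,
      Complex.norm_I, Real.norm_eq_abs]
    field_simp
  rw [e]
  constructor
  · intro h
    have h4 : ‖B' κ - z‖ / ‖B κ - z‖ = 1 := mul_left_cancel₀ h3.ne' (by rw [h, mul_one])
    rw [div_eq_one_iff_eq h1'.ne', ← pow_left_inj₀ (norm_nonneg _) (norm_nonneg _) two_ne_zero,
      norm_sq_re_im, norm_sq_re_im] at h4
    simp only [B, B', Complex.add_re, Complex.sub_re, Complex.add_im, Complex.sub_im,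
      Complex.ofReal_re, Complex.ofReal_im, Complex.I_re, Complex.I_im] at h4
    linarith
  · intro h
    have h4 : ‖B' κ - z‖ / ‖B κ - z‖ = 1 := by
      rw [div_eq_one_iff_eq h1'.ne', ← pow_left_inj₀ (norm_nonneg _) (norm_nonneg _) two_ne_zero,
        norm_sq_re_im, norm_sq_re_im]
      simp only [B, B', Complex.add_re, Complex.sub_re, Complex.add_im, Complex.sub_im,
        Complex.ofReal_re, Complex.ofReal_im, Complex.I_re, Complex.I_im]
      rw [h]; ring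
    rw [h4, mul_one]

theorem g_eq {z : ℂ} : g κ z = A' κ * z / (B κ - z) := by
  unfold g A'
  rw [div_mul_eq_mul_div, div_div]

theorem g_add {z : ℂ} (hz : z ≠ B κ) : g κ z + A' κ = A' κ * B κ / (B κ - z) := by
  have h1 : B κ - z ≠ 0 := sub_ne_zero.2 hz.symm
  rw [g_eq, eq_div_iff h1, add_mul, div_mul_cancel₀ _ h1]
  ring

/-- `t = η² / (1 - η²)` -/
noncomputable def tt (η : ℝ) : ℝ := η ^ 2 / (1 - η ^ 2)

/-- radius of the small circle in the normalised plane -/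
noncomputable def rr (κ η : ℝ) : ℝ := η * ‖A' κ‖ / (1 - η ^ 2)

theorem mem_T {z : ℂ} {η : ℝ} (hκ : κ ≠ 0) (hz : z ≠ B κ) (h0 : 0 < η) (h1 : η < 1) :
    ‖g κ z - tt η * A' κ‖ = rr κ η ↔ ‖z‖ = η * ‖B κ‖ := by
  have hb : B κ - z ≠ 0 := sub_ne_zero.2 hz.symm
  have hb' : 0 < ‖B κ - z‖ := norm_pos_iff.2 hb
  have hA : 0 < ‖A' κ‖ := norm_pos_iff.2 (A'_ne κ hκ)
  have h2 : 0 < 1 - η ^ 2 := by nlinarith
  have h2c : (1 - (η:ℂ) ^ 2) ≠ 0 := by
    have : ((1 - η ^ 2 : ℝ) : ℂ) ≠ 0 := by exact_mod_cast h2.ne'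
    simpa using this
  have e1 : g κ z - tt η * A' κ = A' κ * (z - (η:ℂ) ^ 2 * B κ) / ((1 - (η:ℂ) ^ 2) * (B κ - z)) := by
    rw [g_eq, tt]
    push_cast
    field_simp
    ring
  have e2 : ‖(1 - (η:ℂ) ^ 2)‖ = 1 - η ^ 2 := by
    have : (1 - (η:ℂ) ^ 2) = ((1 - η ^ 2 : ℝ) : ℂ) := by push_cast; ring
    rw [this, Complex.norm_real, Real.norm_of_nonneg h2.le]
  rw [e1, norm_div, norm_mul, norm_mul, e2, rr, div_eq_div_iff (by positivity) h2.ne']
  have e3 : ‖A' κ‖ * ‖z - (η:ℂ) ^ 2 * B κ‖ * (1 - η ^ 2) =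
      η * ‖A' κ‖ * ((1 - η ^ 2) * ‖B κ - z‖) ↔ ‖z - (η:ℂ) ^ 2 * B κ‖ = η * ‖B κ - z‖ := by
    constructor
    · intro h
      have h3 : (‖A' κ‖ * (1 - η ^ 2)) * ‖z - (η:ℂ) ^ 2 * B κ‖ =
          (‖A' κ‖ * (1 - η ^ 2)) * (η * ‖B κ - z‖) := by linarith
      exact mul_left_cancel₀ (by positivity) h3
    · intro h; rw [h]; ring
  rw [e3]
  have hB : 0 < ‖B κ‖ := norm_pos_iff.2 (B_ne κ)
  have key : ‖z - (η:ℂ) ^ 2 * B κ‖ ^ 2 - (η * ‖B κ - z‖) ^ 2 =
      (1 - η ^ 2) * (‖z‖ ^ 2 - (η * ‖B κ‖) ^ 2) := by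
    rw [mul_pow, mul_pow, norm_sq_re_im, norm_sq_re_im, norm_sq_re_im, norm_sq_re_im]
    have : ((η:ℂ) ^ 2) = ((η ^ 2 : ℝ) : ℂ) := by push_cast; ring
    rw [this]
    simp only [Complex.sub_re, Complex.sub_im, Complex.re_ofReal_mul, Complex.im_ofReal_mul]
    ring
  constructor
  · intro h
    rw [h, sub_self] at key
    have h4 : ‖z‖ ^ 2 = (η * ‖B κ‖) ^ 2 := by
      have := (mul_eq_zero.1 key.symm).resolve_left h2.ne'
      linarith
    exact (pow_left_inj₀ (norm_nonneg _) (by positivity) two_ne_zero).1 h4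
  · intro h
    rw [h, sub_self, mul_zero] at key
    exact (pow_left_inj₀ (norm_nonneg _) (by positivity) two_ne_zero).1 (by linarith)

theorem tt_id {η : ℝ} (h0 : 0 < η) (h1 : η < 1) :
    tt η + tt η ^ 2 = η ^ 2 / (1 - η ^ 2) ^ 2 := by
  have h2 : (1 - η ^ 2) ≠ 0 := by nlinarith
  unfold tt
  field_simp
  ring

theorem rr_sq {η : ℝ} : rr κ η ^ 2 = η ^ 2 / (1 - η ^ 2) ^ 2 * (4 * κ ^ 2 / (κ ^ 2 + 1)) := by
  unfold rr
  rw [div_pow, mul_pow, normA']
  ring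

theorem T_K {η : ℝ} (h0 : 0 < η) (h1 : η < 1) :
    ‖1 + tt η * A' κ‖ ^ 2 = 1 + rr κ η ^ 2 := by
  have h2 : (κ ^ 2 + 1 : ℝ) ≠ 0 := by positivity
  rw [rr_sq, ← tt_id h0 h1, norm_sq_re_im, A'_eq]
  simp only [Complex.add_re, Complex.add_im, Complex.re_ofReal_mul, Complex.im_ofReal_mul,
    Complex.one_re, Complex.one_im]
  field_simp
  ring

theorem T_L {η : ℝ} (h0 : 0 < η) (h1 : η < 1) :
    ‖I * κ + tt η * A' κ‖ ^ 2 = κ ^ 2 + rr κ η ^ 2 := by
  have h2 : (κ ^ 2 + 1 : ℝ) ≠ 0 := by positivity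
  rw [rr_sq, ← tt_id h0 h1, norm_sq_re_im, A'_eq]
  simp only [Complex.add_re, Complex.add_im, Complex.re_ofReal_mul, Complex.im_ofReal_mul,
    Complex.mul_re, Complex.mul_im, Complex.I_re, Complex.I_im, Complex.ofReal_re,
    Complex.ofReal_im]
  field_simp
  ring

end chart

end Pool.Agent.V8H30.OC
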