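import Pool.Agent.V8H30.OC.Geo

set_option autoImplicit false

open Set Metric Complex

namespace Pool.Agent.V8H30.OC

variable {κ : ℝ}

/-- inverse of the Möbius chart -/
noncomputable def inv (κ : ℝ) (y : ℂ) : ℂ := y * B κ / (y + A' κ)

theorem inv_g (hκ : κ ≠ 0) {z : ℂ} (hz : z ≠ B κ) :
    g κ z + A' κ ≠ 0 ∧ inv κ (g κ z) = z := by
  have h1 : B κ - z ≠ 0 := sub_ne_zero.2 hz.symm
  have hA := A'_ne κ hκ
  have hB := B_ne κ
  rw [inv, g_add hz]
  refine ⟨div_ne_zero (mul_ne_zero hA hB) h1, ?_⟩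
  rw [g_eq]
  field_simp

theorem g_inv (hκ : κ ≠ 0) {y : ℂ} (hy : y + A' κ ≠ 0) :
    inv κ y ≠ B κ ∧ g κ (inv κ y) = y := by
  have hA := A'_ne κ hκ
  have hB := B_ne κ
  have e : B κ - inv κ y = B κ * A' κ / (y + A' κ) := by
    rw [inv, eq_div_iff hy, sub_mul, div_mul_cancel₀ _ hy]
    ring
  constructor
  · intro h
    rw [h, sub_self] at e
    exact div_ne_zero (mul_ne_zero hB hA) hy e.symm
  · rw [g_eq, e, inv]
    field_simp

theorem g_cont : ContinuousOn (g κ) {z | z ≠ B κ} := by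
  unfold g
  apply ContinuousOn.div
  · fun_prop
  · fun_prop
  · intro z hz
    exact mul_ne_zero (B'_ne κ) (sub_ne_zero.2 (Ne.symm hz))

theorem orth_symm {K L : ℂ × ℝ} (h : Orth K L) : Orth L K := by
  obtain ⟨⟨p, q, hpq, he⟩, h2⟩ := h
  refine ⟨⟨p, q, hpq, by rw [inter_comm]; exact he⟩, ?_⟩
  rintro x ⟨hx1, hx2⟩
  rw [real_inner_comm]
  exact h2 x ⟨hx2, hx1⟩

/-- all the data near a crossing point `p`: the circles `K`, `L` through `p`, the new small circle
`T` and the chart `G` -/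
structure Local (S : Finset (ℂ × ℝ)) (p : ℂ) (V : Set ℂ) (K L T : ℂ × ℝ) (G : ℂ → ℂ)
    (δ δ' : ℝ) : Prop where
  hK : K ∈ S
  hL : L ∈ S
  ne : K ≠ L
  pK : p ∈ circ K
  pL : p ∈ circ L
  Tpos : 0 < T.2
  TV : circ T ⊆ V
  pT : p ∉ circ T
  TK : Orth T K
  TL : Orth T L
  pos : 0 < δ
  lt : δ < δ'
  cont : ContinuousOn G (ball 0 δ')
  inj : InjOn G (ball 0 δ')
  opn : ∀ O ⊆ ball (0:ℂ) δ', IsOpen O → IsOpen (G '' O)
  sub : ∀ z ∈ ball (0:ℂ) δ', G z ∈ V
  mK : ∀ z ∈ ball (0:ℂ) δ', G z ∈ circ K ↔ z.re = 0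
  mL : ∀ z ∈ ball (0:ℂ) δ', G z ∈ circ L ↔ z.im = 0
  mT : ∀ z ∈ ball (0:ℂ) δ', G z ∈ circ T ↔ ‖z‖ = δ

theorem inner_eq_re (u v : ℂ) : inner ℝ u v = u.re * v.re + u.im * v.im := by
  rw [Complex.inner]
  simp
  ring

theorem perp {u v : ℂ} (hu : u ≠ 0) (h : inner ℝ u v = 0) : ∃ κ : ℝ, v = u * (I * κ) := by
  rw [inner_eq_re] at h
  have hN : 0 < u.re ^ 2 + u.im ^ 2 := by
    rw [← norm_sq_re_im]
    have := norm_pos_iff.2 hu
    positivity
  refine ⟨(u.re * v.im - u.im * v.re) / (u.re ^ 2 + u.im ^ 2), ?_⟩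
  apply Complex.ext
  · simp only [Complex.mul_re, Complex.mul_im, Complex.I_re, Complex.I_im, Complex.ofReal_re,
      Complex.ofReal_im]
    field_simp
    linear_combination u.re * h
  · simp only [Complex.mul_re, Complex.mul_im, Complex.I_re, Complex.I_im, Complex.ofReal_re,
      Complex.ofReal_im]
    field_simp
    linear_combination u.im * h

theorem orth_of_mem {S : Finset (ℂ × ℝ)} (hS : IsArr S) {K L : ℂ × ℝ} (hK : K ∈ S) (hL : L ∈ S)
    (hne : K ≠ L) {p : ℂ} (h1 : p ∈ circ K) (h2 : p ∈ circ L) :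
    inner ℝ (p - K.1) (p - L.1) = 0 := by
  rcases hS.pair K hK L hL hne with h | h
  · exact absurd h2 (Set.disjoint_left.1 h h1)
  · exact h.2 p ⟨h1, h2⟩

theorem exists_local {S : Finset (ℂ × ℝ)} (hS : IsArr S) {p : ℂ} (hp : p ∈ crossings S)
    {V : Set ℂ} (hV : IsOpen V) (hpV : p ∈ V) :
    ∃ (K L T : ℂ × ℝ) (G : ℂ → ℂ) (δ δ' : ℝ), Local S p V K L T G δ δ' := by
  obtain ⟨⟨a, r⟩, hK, ⟨b, s⟩, hL, hne, hpK, hpL⟩ := hp
  have hr : 0 < r := hS.pos _ hK
  have hs : 0 < s := hS.pos _ hL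
  have hin := orth_of_mem hS hK hL hne hpK hpL
  have hur : ‖p - a‖ = r := mem_circ.1 hpK
  have hvs : ‖p - b‖ = s := mem_circ.1 hpL
  simp only at hin
  set u : ℂ := p - a with hu
  have hu0 : u ≠ 0 := by
    intro h; rw [h] at hur; simp at hur; linarith
  have hun : 0 < ‖u‖ := norm_pos_iff.2 hu0
  obtain ⟨κ, hκv⟩ := perp hu0 hin
  have hκ : κ ≠ 0 := by
    intro h
    rw [h] at hκv
    simp at hκv
    rw [hκv] at hvs
    simp at hvs
    linarith
  have hsκ : s = ‖u‖ * |κ| := by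
    rw [← hvs, hκv, norm_mul, norm_mul, Complex.norm_I, Complex.norm_real, one_mul,
      Real.norm_eq_abs]
  have hBpos : 0 < ‖B κ‖ := norm_pos_iff.2 (B_ne κ)
  set G : ℂ → ℂ := fun z => p + u * g κ z with hG
  have hG0 : G 0 = p := by simp [hG, g]
  have hGc : ContinuousOn G {z | z ≠ B κ} := by
    apply ContinuousOn.add continuousOn_const
    exact continuousOn_const.mul g_cont
  have hnB : IsOpen {z : ℂ | z ≠ B κ} := isOpen_ne
  -- choice of the radius
  have hpre : IsOpen ({z : ℂ | z ≠ B κ} ∩ G ⁻¹' V) := hGc.isOpen_inter_preimage hnB hV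
  obtain ⟨ε, hε, hεV⟩ := Metric.isOpen_iff.1 hpre 0 ⟨(B_ne κ).symm, by
    show G 0 ∈ V
    rw [hG0]; exact hpV⟩
  set δ' : ℝ := min ε ‖B κ‖ with hδ'
  have hδ'pos : 0 < δ' := lt_min hε hBpos
  have hδ'B : δ' ≤ ‖B κ‖ := min_le_right _ _
  have hδ'ε : δ' ≤ ε := min_le_left _ _
  set η : ℝ := δ' / (2 * ‖B κ‖) with hη
  have hη0 : 0 < η := by positivity
  have hη1 : η < 1 := by
    rw [hη, div_lt_one (by positivity)]
    linarith
  set δ : ℝ := δ' / 2 with hδ
  have hδη : η * ‖B κ‖ = δ := by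
    rw [hη, hδ]; field_simp
  have hzB : ∀ z ∈ ball (0:ℂ) δ', z ≠ B κ := by
    intro z hz h
    rw [mem_ball_zero_iff] at hz
    rw [h] at hz
    linarith
  have hzV : ∀ z ∈ ball (0:ℂ) δ', G z ∈ V := by
    intro z hz
    have : z ∈ ball (0:ℂ) ε := ball_subset_ball hδ'ε hz
    exact (hεV this).2
  set c' : ℂ := tt η * A' κ with hc'
  set T : ℂ × ℝ := (p + u * c', ‖u‖ * rr κ η) with hT
  have hApos : 0 < ‖A' κ‖ := norm_pos_iff.2 (A'_ne κ hκ)
  have h1η : 0 < 1 - η ^ 2 := by nlinarith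
  have hrr : 0 < rr κ η := by unfold rr; positivity
  have hTpos : 0 < T.2 := mul_pos hun hrr
  have memT : ∀ y : ℂ, p + u * y ∈ circ T ↔ ‖y - c'‖ = rr κ η := by
    intro y
    rw [mem_circ]
    have : p + u * y - T.1 = u * (y - c') := by simp only [hT]; ring
    rw [this, norm_mul]
    constructor
    · intro h; exact mul_left_cancel₀ hun.ne' h
    · intro h; rw [h]
  have hmT : ∀ z, z ≠ B κ → (G z ∈ circ T ↔ ‖z‖ = δ) := by
    intro z hz
    rw [← hδη, ← mem_T hκ hz hη0 hη1]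
    exact memT (g κ z)
  refine ⟨(a, r), (b, s), T, G, δ, δ', hK, hL, hne, hpK, hpL, hTpos, ?_, ?_, ?_, ?_,
    by positivity, by rw [hδ]; linarith, hGc.mono hzB, ?_, ?_, hzV, ?_, ?_,
    fun z hz => hmT z (hzB z hz)⟩
  · -- T in V
    intro x hx
    set y : ℂ := (x - p) / u with hy
    have hxy : x = p + u * y := by rw [hy]; field_simp; ring
    rw [hxy, memT] at hx
    have hyA : y + A' κ ≠ 0 := by
      intro h
      have h2 : y - c' = -((1 + tt η : ℝ) : ℂ) * A' κ := by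
        rw [eq_neg_of_add_eq_zero_left h, hc']; push_cast; ring
      rw [h2, norm_mul, norm_neg, Complex.norm_real] at hx
      have h3 : 1 + tt η = 1 / (1 - η ^ 2) := by
        unfold tt; field_simp; ring
      rw [h3, Real.norm_of_nonneg (by positivity), rr] at hx
      have h4 : ‖A' κ‖ = η * ‖A' κ‖ := by
        field_simp at hx
        nlinarith
      nlinarith
    obtain ⟨h1, h2⟩ := g_inv hκ hyA
    have h3 : x = G (inv κ y) := by
      rw [hxy]; simp only [hG]; rw [h2]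
    have h4 : ‖inv κ y‖ = δ := by
      rw [← hmT _ h1, ← h3, hxy, memT]
      exact hx
    rw [h3]
    apply hzV
    rw [mem_ball_zero_iff, h4, hδ]
    linarith
  · rw [← hG0, hmT 0 (B_ne κ).symm]
    simp
    positivity
  · -- orthogonal to K
    apply orth_of_dist hTpos hr
    have : p + u * c' - a = u * (1 + c') := by rw [hu]; ring
    rw [this, norm_mul, mul_pow, hc', T_K hη0 hη1, ← hur, mul_pow]
    ring
  · apply orth_of_dist hTpos hs
    have : p + u * c' - b = u * (I * κ + c') := by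
      have : p + u * c' - b = (p - b) + u * c' := by ring
      rw [this, hκv]; ring
    rw [this, norm_mul, mul_pow, hc', T_L hη0 hη1, hsκ, mul_pow, mul_pow, sq_abs]
    ring
  · -- injective
    intro z hz y hy hzy
    simp only [hG, add_right_inj] at hzy
    have h1 := mul_left_cancel₀ hu0 hzy
    rw [← (inv_g hκ (hzB z hz)).2, ← (inv_g hκ (hzB y hy)).2, h1]
  · -- open
    intro O hO hOo
    have e : G '' O = {x : ℂ | (x - p) / u + A' κ ≠ 0} ∩
        (fun x => inv κ ((x - p) / u)) ⁻¹' O := by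
      ext x
      constructor
      · rintro ⟨z, hz, rfl⟩
        have h1 := inv_g hκ (hzB z (hO hz))
        have h2 : (G z - p) / u = g κ z := by
          simp only [hG]; rw [add_sub_cancel_left]; field_simp
        refine ⟨?_, ?_⟩
        · show (G z - p) / u + A' κ ≠ 0
          rw [h2]; exact h1.1
        · show inv κ ((G z - p) / u) ∈ O
          rw [h2, h1.2]; exact hz
      · rintro ⟨h1, h2⟩
        refine ⟨_, h2, ?_⟩
        simp only [hG]
        rw [(g_inv hκ h1).2]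
        field_simp
        ring
    rw [e]
    apply ContinuousOn.isOpen_inter_preimage _ _ hOo
    · unfold inv
      apply ContinuousOn.div
      · fun_prop
      · fun_prop
      · intro x hx; exact hx
    · apply isOpen_ne.preimage
      fun_prop
  · intro z hz
    rw [mem_circ, ← norm_one_add hκ (hzB z hz)]
    have : G z - a = u * (1 + g κ z) := by simp only [hG, hu]; ring
    show ‖G z - a‖ = r ↔ _
    rw [this, norm_mul, hur]
    constructor
    · intro h
      exact mul_left_cancel₀ hr.ne' (by rw [h, mul_one])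
    · intro h; rw [h, mul_one]
  · intro z hz
    rw [mem_circ, ← norm_kap_add hκ (hzB z hz)]
    have : G z - b = u * (I * κ + g κ z) := by
      have : G z - b = (p - b) + u * g κ z := by simp only [hG]; ring
      rw [this, hκv]; ring
    show ‖G z - b‖ = s ↔ _
    rw [this, norm_mul, hsκ]
    constructor
    · intro h
      exact mul_left_cancel₀ hun.ne' h
    · intro h; rw [h]

end Pool.Agent.V8H30.OC
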