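import Pool.Agent.V8H30.OC.Extend

set_option autoImplicit false

open Set Metric Complex

namespace Pool.Agent.V8H30.OC

/-- orthogonality in terms of the distance of the centres -/
def OrthP (K L : ℂ × ℝ) : Prop := ‖K.1 - L.1‖ ^ 2 = K.2 ^ 2 + L.2 ^ 2

/-- disjointness in terms of the distance of the centres -/
def DisP (K L : ℂ × ℝ) : Prop :=
  (K.2 + L.2) ^ 2 < ‖K.1 - L.1‖ ^ 2 ∨ ‖K.1 - L.1‖ ^ 2 < (K.2 - L.2) ^ 2

theorem OrthP.symm {K L : ℂ × ℝ} (h : OrthP K L) : OrthP L K := by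
  unfold OrthP at *
  rw [norm_sub_rev, h, add_comm]

theorem DisP.symm {K L : ℂ × ℝ} (h : DisP K L) : DisP L K := by
  unfold DisP at *
  rw [norm_sub_rev, add_comm, show (L.2 - K.2) ^ 2 = (K.2 - L.2) ^ 2 by ring]
  exact h

theorem disP_disjoint {K L : ℂ × ℝ} (h : DisP K L) :
    Disjoint (circ K) (circ L) := by
  rw [Set.disjoint_left]
  intro x h1 h2
  rw [mem_circ] at h1 h2
  have e : K.1 - L.1 = (x - L.1) - (x - K.1) := by ring
  have t1 : ‖K.1 - L.1‖ ≤ K.2 + L.2 := by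
    rw [e, ← h1, ← h2, add_comm]; exact norm_sub_le _ _
  have t2 : |K.2 - L.2| ≤ ‖K.1 - L.1‖ := by
    rw [e, norm_sub_rev, ← h1, ← h2]; exact abs_norm_sub_norm_le _ _
  rcases h with h | h
  · have := pow_le_pow_left₀ (norm_nonneg _) t1 2
    linarith
  · have := pow_le_pow_left₀ (abs_nonneg _) t2 2
    rw [sq_abs] at this
    linarith

theorem many {ι : Type} [DecidableEq ι] (c : ι → ℂ × ℝ) (J : Finset ι)
    (hpos : ∀ a ∈ J, 0 < (c a).2)
    (hrel : ∀ a ∈ J, ∀ b ∈ J, a ≠ b → OrthP (c a) (c b) ∨ DisP (c a) (c b))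
    (E : Finset (ι × ι))
    (hE : ∀ e ∈ E, e.1 ∈ J ∧ e.2 ∈ J ∧ e.1 ≠ e.2 ∧ OrthP (c e.1) (c e.2))
    (hE2 : ∀ e ∈ E, ∀ f ∈ E, ¬ (e.1 = f.2 ∧ e.2 = f.1)) :
    ∃ S : Finset (ℂ × ℝ), IsArr S ∧ S.card = J.card ∧
      ∃ Y : Finset ℂ, Y.card = 2 * E.card ∧ ∀ p ∈ Y, p ∈ crossings S := by
  classical
  have hinj : Set.InjOn c J := by
    intro a ha b hb h
    by_contra hne
    have hp := hpos a ha
    rcases hrel a ha b hb hne with h1 | h1 | h1
    · unfold OrthP at h1
      rw [← h] at h1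
      simp at h1
      nlinarith
    · rw [← h] at h1
      simp at h1
      nlinarith
    · rw [← h] at h1
      simp at h1
  have horth : ∀ a ∈ J, ∀ b ∈ J, OrthP (c a) (c b) → Orth (c a) (c b) := by
    intro a ha b hb h
    exact orth_of_dist (hpos a ha) (hpos b hb) h
  set S : Finset (ℂ × ℝ) := J.image c with hSdef
  have hS : IsArr S := by
    constructor
    · intro K hK
      obtain ⟨a, ha, rfl⟩ := Finset.mem_image.1 hK
      exact hpos a ha
    · intro K hK L hL hne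
      obtain ⟨a, ha, rfl⟩ := Finset.mem_image.1 hK
      obtain ⟨b, hb, rfl⟩ := Finset.mem_image.1 hL
      have hab : a ≠ b := fun h => hne (by rw [h])
      rcases hrel a ha b hb hab with h | h
      · exact Or.inr (horth a ha b hb h)
      · exact Or.inl (disP_disjoint h)
  refine ⟨S, hS, Finset.card_image_of_injOn hinj, ?_⟩
  have hex : ∀ e ∈ E, ∃ pq : ℂ × ℂ, pq.1 ≠ pq.2 ∧
      circ (c e.1) ∩ circ (c e.2) = {pq.1, pq.2} := by
    intro e he
    obtain ⟨h1, h2, h3, h4⟩ := hE e he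
    obtain ⟨⟨p, q, hpq, h5⟩, -⟩ := horth _ h1 _ h2 h4
    exact ⟨(p, q), hpq, h5⟩
  choose! pq hpq using hex
  have hmem : ∀ e ∈ E, ∀ x, x ∈ ({(pq e).1, (pq e).2} : Finset ℂ) →
      x ∈ circ (c e.1) ∧ x ∈ circ (c e.2) := by
    intro e he x hx
    have h1 : x ∈ ({(pq e).1, (pq e).2} : Set ℂ) := by
      rcases Finset.mem_insert.1 hx with h | h
      · left; exact h
      · right; exact Finset.mem_singleton.1 h
    rw [← (hpq e he).2] at h1
    exact h1
  refine ⟨E.biUnion (fun e => {(pq e).1, (pq e).2}), ?_, ?_⟩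
  · rw [Finset.card_biUnion]
    · rw [Finset.sum_congr rfl (fun e he => Finset.card_pair (hpq e he).1), Finset.sum_const,
        smul_eq_mul, mul_comm]
    · intro e he f hf hne
      rw [Function.onFun, Finset.disjoint_left]
      intro x hx hx'
      obtain ⟨a1, a2⟩ := hmem e he x hx
      obtain ⟨b1, b2⟩ := hmem f hf x hx'
      obtain ⟨h1, h2, h3, -⟩ := hE e he
      obtain ⟨g1, g2, g3, -⟩ := hE f hf
      have me1 := Finset.mem_image_of_mem c h1
      have me2 := Finset.mem_image_of_mem c h2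
      have mf1 := Finset.mem_image_of_mem c g1
      have mf2 := Finset.mem_image_of_mem c g2
      have hce : c e.1 ≠ c e.2 := fun h => h3 (hinj h1 h2 h)
      have t1 := three hS me1 me2 mf1 hce a1 a2 b1
      have t2 := three hS me1 me2 mf2 hce a1 a2 b2
      rcases t1 with t1 | t1 <;> rcases t2 with t2 | t2
      · exact g3 (hinj g1 g2 (t1.trans t2.symm))
      · exact hne (Prod.ext (hinj h1 g1 t1.symm) (hinj h2 g2 t2.symm))
      · exact hE2 e he f hf ⟨hinj h1 g2 t2.symm, hinj h2 g1 t1.symm⟩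
      · exact g3 (hinj g1 g2 (t1.trans t2.symm))
  · intro p hp
    obtain ⟨e, he, hx⟩ := Finset.mem_biUnion.1 hp
    obtain ⟨a1, a2⟩ := hmem e he p hx
    obtain ⟨h1, h2, h3, -⟩ := hE e he
    exact ⟨c e.1, Finset.mem_image_of_mem c h1, c e.2, Finset.mem_image_of_mem c h2,
      fun h => h3 (hinj h1 h2 h), a1, a2⟩

end Pool.Agent.V8H30.OC
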