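import Pool.Agent.V8H30.OC.Final

set_option autoImplicit false

open Set Metric Complex

namespace Pool.Agent.V8H30.OC

/-- two orthogonal circles (indices `0`, `1`) and circles orthogonal to both -/
noncomputable def pc (i : ℕ) : ℂ × ℝ :=
  if i = 0 then (1, Real.sqrt 2) else if i = 1 then (-1, Real.sqrt 2) else
    (⟨0, i⟩, Real.sqrt ((i : ℝ) ^ 2 - 1))

theorem pc_ge {i : ℕ} (h : 2 ≤ i) : pc i = (⟨0, i⟩, Real.sqrt ((i : ℝ) ^ 2 - 1)) := by
  unfold pc
  rw [if_neg (by omega), if_neg (by omega)]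

theorem pc_pos {i : ℕ} (h : 2 ≤ i) : (0:ℝ) < (i : ℝ) ^ 2 - 1 := by
  have : (2:ℝ) ≤ i := by exact_mod_cast h
  nlinarith

theorem pc01 : OrthP (pc 0) (pc 1) := by
  unfold OrthP pc
  simp only [if_true, one_ne_zero, if_false]
  rw [Real.sq_sqrt (by norm_num), norm_sq_re_im]
  norm_num

theorem pc0 {i : ℕ} (h : 2 ≤ i) : OrthP (pc 0) (pc i) := by
  have hp := pc_pos h
  rw [pc_ge h]
  unfold OrthP pc
  simp only [if_true]
  rw [Real.sq_sqrt (by norm_num), Real.sq_sqrt hp.le, norm_sq_re_im]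
  simp only [Complex.sub_re, Complex.sub_im, Complex.one_re, Complex.one_im]
  ring

theorem pc1 {i : ℕ} (h : 2 ≤ i) : OrthP (pc 1) (pc i) := by
  have hp := pc_pos h
  rw [pc_ge h]
  unfold OrthP pc
  simp only [if_true, one_ne_zero, if_false]
  rw [Real.sq_sqrt (by norm_num), Real.sq_sqrt hp.le, norm_sq_re_im]
  simp only [Complex.sub_re, Complex.sub_im, Complex.neg_re, Complex.neg_im, Complex.one_re,
    Complex.one_im]
  ring

theorem pc2 {i j : ℕ} (hi : 2 ≤ i) (hj : 2 ≤ j) (hne : i ≠ j) : DisP (pc i) (pc j) := by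
  right
  rw [pc_ge hi, pc_ge hj]
  have h1 := pc_pos hi
  have h2 := pc_pos hj
  have hi' : (2:ℝ) ≤ i := by exact_mod_cast hi
  have hj' : (2:ℝ) ≤ j := by exact_mod_cast hj
  have hne' : (i:ℝ) - j ≠ 0 := by
    rw [sub_ne_zero]; exact_mod_cast hne
  simp only
  rw [norm_sq_re_im]
  simp only [Complex.sub_re, Complex.sub_im]
  set a := Real.sqrt ((i : ℝ) ^ 2 - 1)
  set b := Real.sqrt ((j : ℝ) ^ 2 - 1)
  have ha : a ^ 2 = (i : ℝ) ^ 2 - 1 := Real.sq_sqrt h1.le
  have hb : b ^ 2 = (j : ℝ) ^ 2 - 1 := Real.sq_sqrt h2.le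
  have ha0 : 0 ≤ a := Real.sqrt_nonneg _
  have hb0 : 0 ≤ b := Real.sqrt_nonneg _
  have h3 : (a * b) ^ 2 < ((i:ℝ) * j - 1) ^ 2 := by
    have h4 : 0 < ((i:ℝ) - j) ^ 2 := by positivity
    have h5 : (a * b) ^ 2 = ((i : ℝ) ^ 2 - 1) * ((j : ℝ) ^ 2 - 1) := by rw [← ha, ← hb]; ring
    rw [h5]
    nlinarith
  have h6 : a * b < (i:ℝ) * j - 1 := by
    apply lt_of_pow_lt_pow_left₀ 2 (by nlinarith) h3
  nlinarith

/-- the orthogonal pairs -/
def ppairs (k : ℕ) : Finset (ℕ × ℕ) :=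
  {(0, 1)} ∪ ((Finset.range k).image (fun i => (0, i + 2)) ∪
    (Finset.range k).image (fun i => (1, i + 2)))

theorem mem_ppairs {k : ℕ} {e : ℕ × ℕ} (h : e ∈ ppairs k) :
    e = (0, 1) ∨ ∃ i, i < k ∧ (e = (0, i + 2) ∨ e = (1, i + 2)) := by
  unfold ppairs at h
  simp only [Finset.mem_union, Finset.mem_singleton, Finset.mem_image, Finset.mem_range] at h
  rcases h with h | ⟨i, hi, h⟩ | ⟨i, hi, h⟩
  · exact Or.inl h
  · exact Or.inr ⟨i, hi, Or.inl h.symm⟩
  · exact Or.inr ⟨i, hi, Or.inr h.symm⟩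

theorem card_ppairs (k : ℕ) : (ppairs k).card = 2 * k + 1 := by
  unfold ppairs
  rw [Finset.card_union_of_disjoint, Finset.card_union_of_disjoint, Finset.card_singleton,
    Finset.card_image_of_injective, Finset.card_image_of_injective, Finset.card_range]
  · ring
  · intro q q' h
    simp only [Prod.mk.injEq] at h
    omega
  · intro q q' h
    simp only [Prod.mk.injEq] at h
    omega
  · rw [Finset.disjoint_left]
    intro e h1 h2
    simp only [Finset.mem_image] at h1 h2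
    obtain ⟨q, -, rfl⟩ := h1
    obtain ⟨q', -, h5⟩ := h2
    simp only [Prod.mk.injEq] at h5
    omega
  · rw [Finset.disjoint_left]
    intro e h1 h2
    simp only [Finset.mem_union, Finset.mem_image, Finset.mem_singleton] at h1 h2
    rcases h2 with ⟨q', -, h5⟩ | ⟨q', -, h5⟩ <;> rw [h1] at h5 <;>
      simp only [Prod.mk.injEq] at h5 <;> omega

theorem pencil_exists (k : ℕ) :
    ∃ S : Finset (ℂ × ℝ), IsArr S ∧ S.card = k + 2 ∧
      ∃ Y : Finset ℂ, Y.card = 4 * k + 2 ∧ ∀ p ∈ Y, p ∈ crossings S := by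
  have hpos : ∀ a ∈ Finset.range (k + 2), 0 < (pc a).2 := by
    intro a _
    unfold pc
    split_ifs with h1 h2
    · exact Real.sqrt_pos.2 (by norm_num)
    · exact Real.sqrt_pos.2 (by norm_num)
    · exact Real.sqrt_pos.2 (pc_pos (by omega))
  have key : ∀ a c : ℕ, a < c → OrthP (pc a) (pc c) ∨ DisP (pc a) (pc c) := by
    intro a c h
    rcases Nat.lt_or_ge a 2 with ha | ha
    · left
      rcases Nat.lt_or_ge c 2 with hc | hc
      · have h1 : a = 0 := by omega
        have h2 : c = 1 := by omega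
        rw [h1, h2]; exact pc01
      · rcases Nat.eq_zero_or_pos a with h1 | h1
        · rw [h1]; exact pc0 hc
        · have h2 : a = 1 := by omega
          rw [h2]; exact pc1 hc
    · right
      exact pc2 ha (by omega) (by omega)
  have hrel : ∀ a ∈ Finset.range (k + 2), ∀ c ∈ Finset.range (k + 2), a ≠ c →
      OrthP (pc a) (pc c) ∨ DisP (pc a) (pc c) := by
    intro a _ c _ hne
    rcases lt_or_gt_of_ne hne with h | h
    · exact key a c h
    · rcases key c a h with h | h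
      · exact Or.inl h.symm
      · exact Or.inr h.symm
  have hE : ∀ e ∈ ppairs k, e.1 ∈ Finset.range (k + 2) ∧ e.2 ∈ Finset.range (k + 2) ∧
      e.1 ≠ e.2 ∧ OrthP (pc e.1) (pc e.2) := by
    intro e he
    rcases mem_ppairs he with rfl | ⟨i, hi, rfl | rfl⟩
    · simp only [Finset.mem_range]
      exact ⟨by omega, by omega, by omega, pc01⟩
    · simp only [Finset.mem_range]
      exact ⟨by omega, by omega, by omega, pc0 (by omega)⟩
    · simp only [Finset.mem_range]
      exact ⟨by omega, by omega, by omega, pc1 (by omega)⟩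
  have hE2 : ∀ e ∈ ppairs k, ∀ f ∈ ppairs k, ¬ (e.1 = f.2 ∧ e.2 = f.1) := by
    intro e he f hf
    rcases mem_ppairs he with rfl | ⟨i, hi, rfl | rfl⟩ <;>
      rcases mem_ppairs hf with rfl | ⟨i', hi', rfl | rfl⟩ <;> simp only <;> omega
  obtain ⟨S, h1, h2, Y, h3, h4⟩ := many pc _ hpos hrel (ppairs k) hE hE2
  refine ⟨S, h1, ?_, Y, ?_, h4⟩
  · rw [h2, Finset.card_range]
  · rw [h3, card_ppairs]; ring

theorem pencil_fill {k y : ℕ} (hy : y ≤ 4 * k + 2) : AtLeast (k + 2 + y) (4 * y) :=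
  fill hy (pencil_exists k)

/-- more than `3 n - 3` triangular faces -/
theorem more' {n : ℕ} (hn : n = 14 ∨ n = 18 ∨ n = 19 ∨ 22 ≤ n) : AtLeast n (3 * n - 2) := by
  rcases hn with rfl | rfl | rfl | hn
  · exact pencil_fill (k := 2) (y := 10) (by norm_num)
  · exact pencil_fill (k := 3) (y := 13) (by norm_num)
  · exact (pencil_fill (k := 3) (y := 14) (by norm_num)).mono (by norm_num)
  · exact more hn

end Pool.Agent.V8H30.OC
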