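import Pool.Agent.V8H30.OC.Many

set_option autoImplicit false

open Set Metric Complex

namespace Pool.Agent.V8H30.OC

/-- the ratio `lam` of the similarity between consecutive rings -/
theorem exists_lam {x κ r : ℝ} (hx0 : 0 < x) (hx1 : x < 1) (hκ : κ = 2 * x ^ 2 - 1) (hκ0 : 0 < κ)
    (hr0 : 0 < r) (hr : r ^ 2 = 1 - κ) :
    ∃ lam : ℝ, 0 < lam ∧ lam < 1 ∧ (1 + lam ^ 2) * κ = 2 * lam * x ∧
      lam * (1 + r) < Real.sqrt κ := by
  set w := Real.sqrt κ with hw
  have hw0 : 0 < w := Real.sqrt_pos.2 hκ0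
  have hww : w ^ 2 = κ := Real.sq_sqrt hκ0.le
  have hκx : κ < x ^ 2 := by nlinarith
  have hwx : w < x := by
    apply lt_of_pow_lt_pow_left₀ 2 hx0.le
    rw [hww]; exact hκx
  have hr1 : r < 1 := by nlinarith
  set μ := w / (1 + r) with hμ
  have hμ0 : 0 < μ := by positivity
  have hμ1 : μ * (1 + r) = w := by rw [hμ]; field_simp
  set q : ℝ → ℝ := fun t => κ * t ^ 2 - 2 * x * t + κ with hq
  have hqc : ContinuousOn q (Icc 0 μ) := by fun_prop
  have hq0 : 0 < q 0 := by simp [hq, hκ0]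
  have hqμ : q μ < 0 := by
    have e : (1 + r) ^ 2 * q μ = 2 * (1 + r) * w * (w - x) := by
      have e1 : (1 + r) ^ 2 * q μ = κ * (μ * (1 + r)) ^ 2 - 2 * x * (μ * (1 + r)) * (1 + r)
          + κ * (1 + r) ^ 2 := by simp only [hq]; ring
      rw [e1, hμ1, hww]
      have : r ^ 2 = 1 - κ := hr
      nlinarith [hww]
    have h2 : 2 * (1 + r) * w * (w - x) < 0 := by
      apply mul_neg_of_pos_of_neg (by positivity)
      linarith
    rw [← e] at h2
    by_contra hcon
    push Not at hcon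
    have : 0 ≤ (1 + r) ^ 2 * q μ := by positivity
    linarith
  obtain ⟨lam, hl, hl2⟩ := intermediate_value_Icc' hμ0.le hqc (show (0:ℝ) ∈ Icc (q μ) (q 0) from
    ⟨hqμ.le, hq0.le⟩)
  have hl0 : lam ≠ 0 := by
    intro h; rw [h] at hl2; linarith
  have hlμ : lam ≠ μ := by
    intro h; rw [h] at hl2; linarith
  have h1 : 0 < lam := lt_of_le_of_ne hl.1 (Ne.symm hl0)
  have h2 : lam < μ := lt_of_le_of_ne hl.2 hlμ
  have h3 : lam * (1 + r) < w := by
    rw [← hμ1]
    exact mul_lt_mul_of_pos_right h2 (by linarith)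
  refine ⟨lam, h1, ?_, ?_, h3⟩
  · by_contra hcon
    push Not at hcon
    nlinarith
  · simp only [hq] at hl2
    linarith

/-- the data of the ring arrangement -/
structure Par (m : ℕ) (x κ r lam w : ℝ) : Prop where
  hm : 5 ≤ m
  hx : x = Real.cos (Real.pi / m)
  x0 : 1 / 2 < x
  x1 : x < 1
  hκ : κ = 2 * x ^ 2 - 1
  κ0 : 0 < κ
  r0 : 0 < r
  hr : r ^ 2 = 1 - κ
  w0 : 0 < w
  hw : w ^ 2 = κ
  l0 : 0 < lam
  l1 : lam < 1
  hl : (1 + lam ^ 2) * κ = 2 * lam * x
  hlr : lam * (1 + r) < w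

theorem exists_par {m : ℕ} (hm : 5 ≤ m) : ∃ x κ r lam w : ℝ, Par m x κ r lam w := by
  have hm0 : (5:ℝ) ≤ m := by exact_mod_cast hm
  have hpi := Real.pi_pos
  set x := Real.cos (Real.pi / m) with hx
  set κ := 2 * x ^ 2 - 1 with hκ
  have hκc : κ = Real.cos (2 * (Real.pi / m)) := by rw [Real.cos_two_mul]
  have hκ0 : 0 < κ := by
    rw [hκc]
    apply Real.cos_pos_of_mem_Ioo
    constructor
    · have : 0 < 2 * (Real.pi / m) := by positivity
      linarith
    · rw [← mul_div_assoc, div_lt_iff₀ (by linarith)]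
      nlinarith
  have hx0 : 0 < x := by
    apply Real.cos_pos_of_mem_Ioo
    constructor
    · have : 0 < Real.pi / m := by positivity
      linarith
    · rw [div_lt_iff₀ (by linarith)]
      nlinarith
  have hxh : 1 / 2 < x := by nlinarith
  have hx1 : x < 1 := by
    have : Real.cos (Real.pi / m) < Real.cos 0 := by
      apply Real.cos_lt_cos_of_nonneg_of_le_pi (le_refl _)
      · rw [div_le_iff₀ (by linarith)]; nlinarith
      · positivity
    rwa [Real.cos_zero] at this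
  have hκ1 : κ < 1 := by nlinarith
  have hr0 : 0 < Real.sqrt (1 - κ) := Real.sqrt_pos.2 (by linarith)
  have hrr : Real.sqrt (1 - κ) ^ 2 = 1 - κ := Real.sq_sqrt (by linarith)
  obtain ⟨lam, h1, h2, h3, h4⟩ := exists_lam hx0 hx1 hκ hκ0 hr0 hrr
  exact ⟨x, κ, _, lam, Real.sqrt κ, hm, hx, hxh, hx1, hκ, hκ0, hr0, hrr, Real.sqrt_pos.2 hκ0,
    Real.sq_sqrt hκ0.le, h1, h2, h3, h4⟩

theorem cos_le {m a D : ℕ} (hm : 0 < m) (h1 : a ≤ D) (h2 : D + a ≤ 2 * m) :
    Real.cos (Real.pi * D / m) ≤ Real.cos (Real.pi * a / m) := by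
  have hpi := Real.pi_pos
  have hm0 : (0:ℝ) < m := by exact_mod_cast hm
  have h1' : (a:ℝ) ≤ D := by exact_mod_cast h1
  have h2' : (D:ℝ) + a ≤ 2 * m := by exact_mod_cast h2
  have ha0 : (0:ℝ) ≤ a := by positivity
  rcases le_total D m with h | h
  · have h' : (D:ℝ) ≤ m := by exact_mod_cast h
    apply Real.cos_le_cos_of_nonneg_of_le_pi
    · positivity
    · rw [div_le_iff₀ hm0]; nlinarith
    · exact div_le_div_of_nonneg_right (by nlinarith) hm0.le
  · have h' : (m:ℝ) ≤ D := by exact_mod_cast h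
    have e : Real.cos (Real.pi * D / m) = Real.cos (Real.pi * (2 * m - D) / m) := by
      rw [← Real.cos_two_pi_sub]
      congr 1
      field_simp
    rw [e]
    apply Real.cos_le_cos_of_nonneg_of_le_pi
    · positivity
    · rw [div_le_iff₀ hm0]; nlinarith
    · exact div_le_div_of_nonneg_right (by nlinarith) hm0.le

section ring

variable {m : ℕ} {x κ r lam w : ℝ}

/-- centres of the ring circles -/
noncomputable def cen (m : ℕ) (lam : ℝ) (j k : ℕ) : ℂ :=
  ⟨lam ^ j * Real.cos (Real.pi * (2 * k + j) / m), lam ^ j * Real.sin (Real.pi * (2 * k + j) / m)⟩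

/-- the circles: `(j, 0)` is the central circle of level `j`, `(j, k)`, `1 ≤ k ≤ m`, the ring
circles -/
noncomputable def cc (m : ℕ) (r lam w : ℝ) (v : ℕ × ℕ) : ℂ × ℝ :=
  if v.2 = 0 then (0, lam ^ v.1 * w) else (cen m lam v.1 v.2, lam ^ v.1 * r)

theorem cen_norm (j k : ℕ) : ‖cen m lam j k‖ ^ 2 = (lam ^ j) ^ 2 := by
  rw [norm_sq_re_im]
  simp only [cen]
  have := Real.cos_sq_add_sin_sq (Real.pi * (2 * k + j) / m)
  calc _ = (lam ^ j) ^ 2 * (Real.cos (Real.pi * (2 * k + j) / m) ^ 2 +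
        Real.sin (Real.pi * (2 * k + j) / m) ^ 2) := by ring
    _ = _ := by rw [this, mul_one]

theorem cen_dist (j k j' k' : ℕ) :
    ‖cen m lam j k - cen m lam j' k'‖ ^ 2 = (lam ^ j) ^ 2 + (lam ^ j') ^ 2 -
      2 * lam ^ j * lam ^ j' *
        Real.cos (Real.pi * (2 * k + j) / m - Real.pi * (2 * k' + j') / m) := by
  rw [norm_sq_re_im, Real.cos_sub]
  simp only [cen, Complex.sub_re, Complex.sub_im]
  have h1 := Real.cos_sq_add_sin_sq (Real.pi * (2 * k + j) / m)
  have h2 := Real.cos_sq_add_sin_sq (Real.pi * (2 * k' + j') / m)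
  linear_combination (lam ^ j) ^ 2 * h1 + (lam ^ j') ^ 2 * h2

theorem cos_diff (D : ℕ) {j k j' k' : ℕ}
    (h : (2 * (k:ℤ) + j) - (2 * k' + j') = D ∨ (2 * (k:ℤ) + j) - (2 * k' + j') = -D) :
    Real.cos (Real.pi * (2 * k + j) / m - Real.pi * (2 * k' + j') / m) =
      Real.cos (Real.pi * D / m) := by
  rcases h with h | h
  · have h' : (2 * (k:ℝ) + j) - (2 * k' + j') = D := by exact_mod_cast h
    congr 1
    rw [← h']; ring
  · have h' : (2 * (k:ℝ) + j) - (2 * k' + j') = -D := by exact_mod_cast h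
    rw [← Real.cos_neg]
    congr 1
    have : (D:ℝ) = -((2 * (k:ℝ) + j) - (2 * k' + j')) := by rw [h']; ring
    rw [this]; ring

theorem cos_one (P : Par m x κ r lam w) {D : ℕ} (h : D = 1 ∨ D = 2 * m - 1) :
    Real.cos (Real.pi * D / m) = x := by
  have hm := P.hm
  have hm0 : (m:ℝ) ≠ 0 := by
    have : m ≠ 0 := by omega
    exact_mod_cast this
  rcases h with h | h
  · rw [h, P.hx]; simp
  · rw [h, P.hx, ← Real.cos_two_pi_sub]
    congr 1
    have : ((2 * m - 1 : ℕ) : ℝ) = 2 * m - 1 := by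
      rw [Nat.cast_sub (by omega)]; push_cast; ring
    rw [this]
    field_simp
    ring

theorem cos_two (P : Par m x κ r lam w) {D : ℕ} (h : D = 2 ∨ D = 2 * m - 2) :
    Real.cos (Real.pi * D / m) = κ := by
  have hm := P.hm
  have hm0 : (m:ℝ) ≠ 0 := by
    have : m ≠ 0 := by omega
    exact_mod_cast this
  have e : Real.cos (2 * (Real.pi / m)) = κ := by
    rw [Real.cos_two_mul, ← P.hx, P.hκ]
  rcases h with h | h
  · rw [h, ← e]
    congr 1
    push_cast
    ring
  · rw [h, ← e, ← Real.cos_two_pi_sub]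
    congr 1
    have : ((2 * m - 2 : ℕ) : ℝ) = 2 * m - 2 := by
      rw [Nat.cast_sub (by omega)]; push_cast; ring
    rw [this]
    field_simp
    ring

theorem cos_three (P : Par m x κ r lam w) {D : ℕ} (h1 : 3 ≤ D) (h2 : D + 3 ≤ 2 * m) :
    Real.cos (Real.pi * D / m) ≤ 4 * x ^ 3 - 3 * x := by
  have hm := P.hm
  refine le_trans (cos_le (by omega) h1 h2) (le_of_eq ?_)
  rw [P.hx, ← Real.cos_three_mul]
  congr 1
  push_cast
  ring

theorem cos_four (P : Par m x κ r lam w) {D : ℕ} (h1 : 4 ≤ D) (h2 : D + 4 ≤ 2 * m) :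
    Real.cos (Real.pi * D / m) ≤ 2 * κ ^ 2 - 1 := by
  have hm := P.hm
  refine le_trans (cos_le (by omega) h1 h2) (le_of_eq ?_)
  have e : Real.cos (2 * (Real.pi / m)) = κ := by
    rw [Real.cos_two_mul, ← P.hx, P.hκ]
  rw [← e, ← Real.cos_two_mul]
  congr 1
  push_cast
  ring

/-- relation between two ring circles -/
theorem ring_rel (P : Par m x κ r lam w) {j k j' k' : ℕ} (hk : 1 ≤ k ∧ k ≤ m)
    (hk' : 1 ≤ k' ∧ k' ≤ m) (hj : j ≤ j') (hne : (j, k) ≠ (j', k')) :
    OrthP (cen m lam j k, lam ^ j * r) (cen m lam j' k', lam ^ j' * r) ∨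
      DisP (cen m lam j k, lam ^ j * r) (cen m lam j' k', lam ^ j' * r) := by
  have hm := P.hm
  have hu : 0 < lam ^ j := pow_pos P.l0 j
  set u := lam ^ j with hu'
  unfold OrthP DisP
  simp only
  rw [cen_dist]
  have hr := P.hr
  have hκ0 := P.κ0
  have hκ1 : κ < 1 := by have := P.r0; nlinarith [P.hr]
  have hx1 := P.x1
  have hx0 := P.x0
  have hl0 := P.l0
  rcases eq_or_lt_of_le hj with h | h
  · -- same level
    subst h
    have hkk : k ≠ k' := fun e => hne (by rw [e])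
    obtain ⟨D, hD⟩ : ∃ D : ℕ, (2 * (k:ℤ) + j) - (2 * k' + j) = D ∨
        (2 * (k:ℤ) + j) - (2 * k' + j) = -D :=
      ⟨((2 * (k:ℤ) + j) - (2 * k' + j)).natAbs, by omega⟩
    rw [cos_diff D hD]
    rw [← hu']
    by_cases h2 : D = 2 ∨ D = 2 * m - 2
    · left
      rw [cos_two P h2]
      have : r ^ 2 = 1 - κ := hr
      calc u ^ 2 + u ^ 2 - 2 * u * u * κ = 2 * u ^ 2 * (1 - κ) := by ring
        _ = (u * r) ^ 2 + (u * r) ^ 2 := by rw [← hr]; ring
    · right; left
      have h3 : 4 ≤ D ∧ D + 4 ≤ 2 * m := by omega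
      have h4 := cos_four P h3.1 h3.2
      set c := Real.cos (Real.pi * D / m)
      have h5 : c < 2 * κ - 1 := by nlinarith
      calc (u * r + u * r) ^ 2 = 4 * u ^ 2 * (1 - κ) := by rw [← hr]; ring
        _ < 2 * u ^ 2 * (1 - c) := by
          have : 0 < u ^ 2 := by positivity
          nlinarith
        _ = u ^ 2 + u ^ 2 - 2 * u * u * c := by ring
  · rcases Nat.lt_or_ge (j + 1) j' with h' | h'
    · -- distance at least two levels
      right; left
      obtain ⟨d, rfl⟩ : ∃ d, j' = j + (d + 2) := ⟨j' - j - 2, by omega⟩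
      have hv : lam ^ (j + (d + 2)) = u * lam ^ (d + 2) := by rw [pow_add]
      rw [hv]
      set μ := lam ^ (d + 2) with hμ
      have hμ0 : 0 < μ := pow_pos hl0 _
      have hμ2 : μ ≤ lam ^ 2 := pow_le_pow_of_le_one hl0.le P.l1.le (by omega)
      have hlr := P.hlr
      have hr0 := P.r0
      have hr1 : r < 1 := by nlinarith
      have h1 : lam ^ 2 * (1 + r) < 1 - r := by
        have h2 : (lam * (1 + r)) ^ 2 < w ^ 2 :=
          pow_lt_pow_left₀ hlr (by positivity) two_ne_zero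
        rw [P.hw] at h2
        have h3 : (1 + r) * (lam ^ 2 * (1 + r)) < (1 + r) * (1 - r) := by nlinarith
        exact lt_of_mul_lt_mul_left h3 (by linarith)
      have h2 : μ * (1 + r) < 1 - r := by nlinarith
      have h3 : r * (1 + μ) < 1 - μ := by linarith
      set c := Real.cos (Real.pi * (2 * k + j) / m -
        Real.pi * (2 * k' + ((j + (d + 2) : ℕ) : ℝ)) / m)
      have hc : c ≤ 1 := Real.cos_le_one _
      have h4 : (r * (1 + μ)) ^ 2 < (1 - μ) ^ 2 :=
        pow_lt_pow_left₀ h3 (by positivity) two_ne_zero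
      calc (u * r + u * μ * r) ^ 2 = u ^ 2 * (r * (1 + μ)) ^ 2 := by ring
        _ < u ^ 2 * (1 - μ) ^ 2 := by
          apply mul_lt_mul_of_pos_left h4; positivity
        _ = u ^ 2 + (u * μ) ^ 2 - 2 * u * (u * μ) * 1 := by ring
        _ ≤ u ^ 2 + (u * μ) ^ 2 - 2 * u * (u * μ) * c := by
          have : 0 ≤ 2 * u * (u * μ) := by positivity
          nlinarith
    · -- consecutive levels
      have hjj : j' = j + 1 := by omega
      subst hjj
      have hv : lam ^ (j + 1) = u * lam := by rw [pow_succ]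
      rw [hv]
      obtain ⟨D, hD⟩ : ∃ D : ℕ, (2 * (k:ℤ) + j) - (2 * k' + (j + 1 : ℕ)) = D ∨
          (2 * (k:ℤ) + j) - (2 * k' + (j + 1 : ℕ)) = -D :=
        ⟨((2 * (k:ℤ) + j) - (2 * k' + (j + 1 : ℕ))).natAbs, by omega⟩
      rw [cos_diff D hD]
      have hl := P.hl
      by_cases h2 : D = 1 ∨ D = 2 * m - 1
      · left
        rw [cos_one P h2]
        calc u ^ 2 + (u * lam) ^ 2 - 2 * u * (u * lam) * x
            = u ^ 2 * (1 + lam ^ 2) - u ^ 2 * (2 * lam * x) := by ring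
          _ = u ^ 2 * (1 + lam ^ 2) - u ^ 2 * ((1 + lam ^ 2) * κ) := by rw [hl]
          _ = u ^ 2 * (1 + lam ^ 2) * (1 - κ) := by ring
          _ = (u * r) ^ 2 + (u * lam * r) ^ 2 := by rw [← hr]; ring
      · right; left
        have h3 : 3 ≤ D ∧ D + 3 ≤ 2 * m := by omega
        have h4 := cos_three P h3.1 h3.2
        set c := Real.cos (Real.pi * D / m)
        have h5 : 1 - κ < x - c := by
          rw [P.hκ]
          nlinarith [mul_pos (show 0 < 2 * x - 1 by linarith)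
            (show 0 < 1 - x ^ 2 by nlinarith)]
        calc (u * r + u * lam * r) ^ 2 = u ^ 2 * (1 + lam) ^ 2 * r ^ 2 := by ring
          _ = u ^ 2 * (1 + lam) ^ 2 * (1 - κ) := by rw [hr]
          _ = u ^ 2 * (1 + lam ^ 2 - (1 + lam ^ 2) * κ + 2 * lam * (1 - κ)) := by ring
          _ = u ^ 2 * (1 + lam ^ 2 - 2 * lam * x + 2 * lam * (1 - κ)) := by rw [hl]
          _ < u ^ 2 * (1 + lam ^ 2 - 2 * lam * x + 2 * lam * (x - c)) := by
            apply mul_lt_mul_of_pos_left _ (by positivity)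
            have := mul_lt_mul_of_pos_left h5 (show 0 < 2 * lam by linarith)
            linarith
          _ = u ^ 2 + (u * lam) ^ 2 - 2 * u * (u * lam) * c := by ring

theorem ring_orth (P : Par m x κ r lam w) {j k j' k' : ℕ} 
    (h : (j' = j ∧ k' = k + 1) ∨ (j' = j + 1 ∧ k' = k) ∨ (j' = j + 1 ∧ k = k' + 1)) :
    OrthP (cen m lam j k, lam ^ j * r) (cen m lam j' k', lam ^ j' * r) := by
  unfold OrthP
  simp only
  rw [cen_dist]
  set u := lam ^ j with hu'
  have hr := P.hr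
  have hl := P.hl
  rcases h with ⟨rfl, rfl⟩ | h
  · rw [cos_diff 2 (by right; push_cast; ring), cos_two P (Or.inl rfl), ← hu']
    calc u ^ 2 + u ^ 2 - 2 * u * u * κ = 2 * u ^ 2 * (1 - κ) := by ring
      _ = (u * r) ^ 2 + (u * r) ^ 2 := by rw [← hr]; ring
  · have hjj : j' = j + 1 := by omega
    subst hjj
    have hv : lam ^ (j + 1) = u * lam := by rw [pow_succ]
    rw [hv, cos_diff 1 (by omega), cos_one P (Or.inl rfl)]
    calc u ^ 2 + (u * lam) ^ 2 - 2 * u * (u * lam) * x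
        = u ^ 2 * (1 + lam ^ 2) - u ^ 2 * (2 * lam * x) := by ring
      _ = u ^ 2 * (1 + lam ^ 2) - u ^ 2 * ((1 + lam ^ 2) * κ) := by rw [hl]
      _ = u ^ 2 * (1 + lam ^ 2) * (1 - κ) := by ring
      _ = (u * r) ^ 2 + (u * lam * r) ^ 2 := by rw [← hr]; ring

theorem centre_orth (P : Par m x κ r lam w) (j k : ℕ) :
    OrthP ((0 : ℂ), lam ^ j * w) (cen m lam j k, lam ^ j * r) := by
  unfold OrthP
  simp only
  rw [zero_sub, norm_neg, cen_norm]
  have h1 := P.hr
  have h2 := P.hw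
  calc (lam ^ j) ^ 2 = (lam ^ j) ^ 2 * (κ + (1 - κ)) := by ring
    _ = (lam ^ j * w) ^ 2 + (lam ^ j * r) ^ 2 := by rw [← h1, ← h2]; ring

theorem centre_rel (P : Par m x κ r lam w) (j j' k : ℕ) :
    OrthP ((0 : ℂ), lam ^ j * w) (cen m lam j' k, lam ^ j' * r) ∨
      DisP ((0 : ℂ), lam ^ j * w) (cen m lam j' k, lam ^ j' * r) := by
  rcases eq_or_ne j j' with h | h
  · subst h; exact Or.inl (centre_orth P j k)
  · right
    unfold DisP
    simp only
    rw [zero_sub, norm_neg, cen_norm]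
    have hl0 := P.l0
    have hl1 := P.l1
    have hr0 := P.r0
    have hw0 := P.w0
    have hlr := P.hlr
    have hw := P.hw
    have hr := P.hr
    rcases Nat.lt_or_ge j j' with h' | h'
    · right
      obtain ⟨d, rfl⟩ : ∃ d, j' = j + (d + 1) := ⟨j' - j - 1, by omega⟩
      rw [pow_add]
      set u := lam ^ j
      set μ := lam ^ (d + 1) with hμ
      have hu : 0 < u := pow_pos hl0 _
      have hμ0 : 0 < μ := pow_pos hl0 _
      have hμ2 : μ ≤ lam := by
        calc μ ≤ lam ^ 1 := pow_le_pow_of_le_one hl0.le hl1.le (by omega)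
          _ = lam := pow_one _
      have h1 : μ * (1 + r) < w := by nlinarith
      have h2 : μ < w - μ * r := by linarith
      have h3 : μ ^ 2 < (w - μ * r) ^ 2 := pow_lt_pow_left₀ h2 hμ0.le two_ne_zero
      calc (u * μ) ^ 2 = u ^ 2 * μ ^ 2 := by ring
        _ < u ^ 2 * (w - μ * r) ^ 2 := by
          apply mul_lt_mul_of_pos_left h3; positivity
        _ = (u * w - u * μ * r) ^ 2 := by ring
    · left
      obtain ⟨d, rfl⟩ : ∃ d, j = j' + (d + 1) := ⟨j - j' - 1, by omega⟩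
      rw [pow_add]
      set u := lam ^ j'
      set μ := lam ^ (d + 1) with hμ
      have hu : 0 < u := pow_pos hl0 _
      have hμ0 : 0 < μ := pow_pos hl0 _
      have hμ2 : μ ≤ lam := by
        calc μ ≤ lam ^ 1 := pow_le_pow_of_le_one hl0.le hl1.le (by omega)
          _ = lam := pow_one _
      have h1 : μ * (1 + r) < w := by nlinarith
      have h2 : μ * w < 1 - r := by
        have h3 : (1 + r) * (μ * w) < (1 + r) * (1 - r) := by nlinarith
        exact lt_of_mul_lt_mul_left h3 (by linarith)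
      have h3 : μ * w + r < 1 := by linarith
      have h4 : (μ * w + r) ^ 2 < 1 ^ 2 := pow_lt_pow_left₀ h3 (by positivity) two_ne_zero
      calc (u * μ * w + u * r) ^ 2 = u ^ 2 * (μ * w + r) ^ 2 := by ring
        _ < u ^ 2 * 1 ^ 2 := by
          apply mul_lt_mul_of_pos_left h4; positivity
        _ = u ^ 2 := by ring

theorem centres_rel (P : Par m x κ r lam w) {j j' : ℕ} (h : j ≠ j') :
    DisP ((0 : ℂ), lam ^ j * w) ((0 : ℂ), lam ^ j' * w) := by
  right
  simp only [sub_self, norm_zero]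
  have h1 : lam ^ j * w - lam ^ j' * w ≠ 0 := by
    rw [← sub_mul]
    apply mul_ne_zero _ P.w0.ne'
    rw [sub_ne_zero]
    intro h2
    exact h (pow_right_injective₀ P.l0 P.l1.ne h2)
  have h2 : 0 < (lam ^ j * w - lam ^ j' * w) ^ 2 := by positivity
  simpa using h2

end ring

end Pool.Agent.V8H30.OC
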