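import Pool.Agent.V8H30.OC.Topo

set_option autoImplicit false

open Set Metric Complex

namespace Pool.Agent.V8H30.OC

/-- a chart of a neighbourhood of a crossing point around which a small circle has been drawn -/
structure Chart (U X : Set ℂ) (G : ℂ → ℂ) (δ δ' : ℝ) : Prop where
  pos : 0 < δ
  lt : δ < δ'
  cont : ContinuousOn G (ball 0 δ')
  inj : InjOn G (ball 0 δ')
  opn : ∀ O ⊆ ball (0:ℂ) δ', IsOpen O → IsOpen (G '' O)
  mem : ∀ z ∈ ball (0:ℂ) δ', G z ∈ U ↔ z.re = 0 ∨ z.im = 0 ∨ ‖z‖ = δ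
  cr : ∀ z ∈ ball (0:ℂ) δ', G z ∈ X ↔ z = 0 ∨ (‖z‖ = δ ∧ (z.re = 0 ∨ z.im = 0))

theorem arc_aux {S : Finset (ℂ × ℝ)} {G : ℂ → ℂ} {δ δ' : ℝ}
    (C : Chart (curves S) (crossings S) G δ δ') {W N : Set ℂ} {h : ℝ → ℂ}
    (hN : IsOpen N) (hNb : N ⊆ ball 0 δ') (hWN : W ⊆ N)
    (hW : ∀ z ∈ N, (G z ∈ curves S ∧ G z ∉ crossings S) ↔ z ∈ W)
    (hc : Continuous h) (hh : h '' Ioo 0 1 = W) (h0 : h 0 ∈ ball (0:ℂ) δ')
    (h1 : h 1 ∈ ball (0:ℂ) δ') (x0 : G (h 0) ∈ crossings S) (x1 : G (h 1) ∈ crossings S) :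
    IsArc S (G '' W) ∧ closure (G '' W) = G '' W ∪ {G (h 0), G (h 1)} := by
  have hIcc : Icc (0:ℝ) 1 = Ioo 0 1 ∪ {0, 1} := by
    rw [Ioo_union_both (by norm_num)]
  have hmaps : MapsTo h (Icc 0 1) (ball 0 δ') := by
    intro t ht
    rw [hIcc] at ht
    rcases ht with ht | ht | ht
    · exact hNb (hWN (by rw [← hh]; exact mem_image_of_mem _ ht))
    · rw [ht]; exact h0
    · rw [ht]; exact h1
  have hGh : ContinuousOn (G ∘ h) (Icc 0 1) := C.cont.comp hc.continuousOn hmaps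
  have hcl : closure (G '' W) = G '' W ∪ {G (h 0), G (h 1)} := by
    have := closure_path hGh
    rw [image_comp, hh] at this
    rw [this, hIcc, image_union, image_comp, hh, image_pair]
    rfl
  refine ⟨?_, hcl⟩
  have hhalf : h (1 / 2) ∈ W := by
    rw [← hh]; exact mem_image_of_mem _ ⟨by norm_num, by norm_num⟩
  have hsub : G '' W ⊆ curves S \ crossings S := by
    rintro _ ⟨z, hz, rfl⟩
    exact (hW z (hWN hz)).2 hz
  have hpre : IsPreconnected (G '' W) := by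
    rw [← hh, ← image_comp]
    exact isPreconnected_Ioo.image _ (hGh.mono Ioo_subset_Icc_self)
  refine ⟨G (h (1 / 2)), hsub (mem_image_of_mem _ hhalf), ?_⟩
  symm
  apply comp_eq hsub hpre (mem_image_of_mem _ hhalf) (C.opn N hNb hN)
  · ext y
    constructor
    · rintro ⟨⟨z, hz, rfl⟩, hy⟩
      exact mem_image_of_mem _ ((hW z hz).1 hy)
    · rintro ⟨z, hz, rfl⟩
      exact ⟨mem_image_of_mem _ (hWN hz), hsub (mem_image_of_mem _ hz)⟩
  · rintro y ⟨hy, hy2⟩
    rw [hcl] at hy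
    rcases hy with hy | hy | hy
    · exact hy
    · exact absurd (hy ▸ x0) hy2.2
    · exact absurd (hy ▸ x1) hy2.2

/-- the open arcs of the quarter disc -/
def W0 (δ : ℝ) : Set ℂ := {z | z.im = 0 ∧ 0 < z.re ∧ z.re < δ}
def W1 (δ : ℝ) : Set ℂ := {z | ‖z‖ = δ ∧ 0 < z.re ∧ 0 < z.im}
def W2 (δ : ℝ) : Set ℂ := {z | z.re = 0 ∧ 0 < z.im ∧ z.im < δ}

theorem path0 {δ : ℝ} (hδ : 0 < δ) : path δ 0 '' Ioo 0 1 = W0 δ := by
  ext z
  constructor
  · rintro ⟨t, ht, rfl⟩
    refine ⟨?_, ?_, ?_⟩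
    · simp [path]
    · simp only [path, Complex.ofReal_re]; exact mul_pos ht.1 hδ
    · simp only [path, Complex.ofReal_re]; nlinarith [ht.2]
  · rintro ⟨h1, h2, h3⟩
    refine ⟨z.re / δ, ⟨by positivity, by rw [div_lt_one hδ]; exact h3⟩, ?_⟩
    apply Complex.ext
    · simp only [path, Complex.ofReal_re]; field_simp
    · simp [path, h1]

theorem path2 {δ : ℝ} (hδ : 0 < δ) : path δ 2 '' Ioo 0 1 = W2 δ := by
  ext z
  constructor
  · rintro ⟨t, ht, rfl⟩
    refine ⟨?_, ?_, ?_⟩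
    · simp [path]
    · have : (path δ 2 t).im = (1 - t) * δ := by simp [path]
      rw [this]; exact mul_pos (by linarith [ht.2]) hδ
    · have : (path δ 2 t).im = (1 - t) * δ := by simp [path]
      rw [this]; nlinarith [ht.1]
  · rintro ⟨h1, h2, h3⟩
    refine ⟨1 - z.im / δ, ⟨?_, ?_⟩, ?_⟩
    · have : z.im / δ < 1 := by rw [div_lt_one hδ]; exact h3
      linarith
    · have : 0 < z.im / δ := by positivity
      linarith
    · apply Complex.ext
      · simp [path, h1]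
      · have : (path δ 2 (1 - z.im / δ)).im = (1 - (1 - z.im / δ)) * δ := by simp [path]
        rw [this]; field_simp; ring

theorem path1 {δ : ℝ} (hδ : 0 < δ) : path δ 1 '' Ioo 0 1 = W1 δ := by
  have hre : ∀ t, (path δ 1 t).re = (1 - t) * δ := by intro t; simp [path]
  have him : ∀ t, (path δ 1 t).im = Real.sqrt (1 - (1 - t) ^ 2) * δ := by intro t; simp [path]
  ext z
  constructor
  · rintro ⟨t, ht, rfl⟩
    have h1 : 0 < 1 - (1 - t) ^ 2 := by nlinarith [ht.1, ht.2]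
    refine ⟨?_, ?_, ?_⟩
    · have h2 : ‖path δ 1 t‖ ^ 2 = δ ^ 2 := by
        rw [← Complex.normSq_eq_norm_sq, Complex.normSq_apply, hre, him]
        have := Real.mul_self_sqrt h1.le
        calc _ = (1 - t) ^ 2 * δ ^ 2 +
            (Real.sqrt (1 - (1 - t) ^ 2) * Real.sqrt (1 - (1 - t) ^ 2)) * δ ^ 2 := by ring
          _ = δ ^ 2 := by rw [this]; ring
      exact (pow_left_inj₀ (norm_nonneg _) hδ.le two_ne_zero).1 h2
    · rw [hre]; exact mul_pos (by linarith [ht.2]) hδ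
    · rw [him]; exact mul_pos (Real.sqrt_pos.2 h1) hδ
  · rintro ⟨h1, h2, h3⟩
    have hsq : z.re ^ 2 + z.im ^ 2 = δ ^ 2 := by
      rw [← h1, ← Complex.normSq_eq_norm_sq, Complex.normSq_apply]; ring
    have hlt : z.re < δ := by nlinarith
    refine ⟨1 - z.re / δ, ⟨?_, ?_⟩, ?_⟩
    · have : z.re / δ < 1 := by rw [div_lt_one hδ]; exact hlt
      linarith
    · have : 0 < z.re / δ := by positivity
      linarith
    · apply Complex.ext
      · rw [hre]; field_simp; ring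
      · rw [him]
        have e : 1 - (1 - (1 - z.re / δ)) ^ 2 = (z.im / δ) ^ 2 := by
          field_simp
          nlinarith
        rw [e, Real.sqrt_sq (by positivity)]
        field_simp

end Pool.Agent.V8H30.OC
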