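import Pool.Agent.V8H30.OC.Defs

set_option autoImplicit false

open Set Metric Complex

namespace Pool.Agent.V8H30.OC

theorem comp_eq {A γ O : Set ℂ} {x : ℂ} (hγ : γ ⊆ A) (hp : IsPreconnected γ) (hx : x ∈ γ)
    (hO : IsOpen O) (hOA : O ∩ A = γ) (hcl : closure γ ∩ A ⊆ γ) :
    connectedComponentIn A x = γ := by
  apply Subset.antisymm
  · intro y hy
    by_contra hyγ
    have hC : IsPreconnected (connectedComponentIn A x) := isPreconnected_connectedComponentIn
    have hCA : connectedComponentIn A x ⊆ A := connectedComponentIn_subset A x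
    have hxC : x ∈ connectedComponentIn A x := mem_connectedComponentIn (hγ hx)
    obtain ⟨w, hw, hw1, hw2⟩ := hC O (closure γ)ᶜ hO isClosed_closure.isOpen_compl (by
      intro w hw
      by_cases h : w ∈ γ
      · left; rw [← hOA] at h; exact h.1
      · right; intro h2; exact h (hcl ⟨h2, hCA hw⟩)) ⟨x, hxC, by rw [← hOA] at hx; exact hx.1⟩
      ⟨y, hy, fun h2 => hyγ (hcl ⟨h2, hCA hy⟩)⟩
    apply hw2
    apply subset_closure
    rw [← hOA]
    exact ⟨hw1, hCA hw⟩
  · exact hp.subset_connectedComponentIn hx hγ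

/-- the open quarter disc -/
def Q (δ : ℝ) : Set ℂ := {z | 0 < z.re ∧ 0 < z.im ∧ ‖z‖ < δ}

/-- the closed quarter disc -/
def Qc (δ : ℝ) : Set ℂ := {z | 0 ≤ z.re ∧ 0 ≤ z.im ∧ ‖z‖ ≤ δ}

theorem Q_open (δ : ℝ) : IsOpen (Q δ) := by
  have h1 : IsOpen {z : ℂ | 0 < z.re} := isOpen_lt continuous_const Complex.continuous_re
  have h2 : IsOpen {z : ℂ | 0 < z.im} := isOpen_lt continuous_const Complex.continuous_im
  have h3 : IsOpen {z : ℂ | ‖z‖ < δ} := isOpen_lt continuous_norm continuous_const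
  exact h1.inter (h2.inter h3)

theorem Q_convex (δ : ℝ) : Convex ℝ (Q δ) := by
  have h1 : Convex ℝ {z : ℂ | 0 < z.re} := by
    have := (convex_Ioi (0:ℝ)).linear_preimage Complex.reLm
    exact this
  have h2 : Convex ℝ {z : ℂ | 0 < z.im} := by
    have := (convex_Ioi (0:ℝ)).linear_preimage Complex.imLm
    exact this
  have h3 : Convex ℝ {z : ℂ | ‖z‖ < δ} := by
    have e : {z : ℂ | ‖z‖ < δ} = ball 0 δ := by ext z; simp
    rw [e]
    exact convex_ball (0:ℂ) δ
  exact h1.inter (h2.inter h3)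

theorem Qc_closed (δ : ℝ) : IsClosed (Qc δ) := by
  have h1 : IsClosed {z : ℂ | 0 ≤ z.re} := isClosed_le continuous_const Complex.continuous_re
  have h2 : IsClosed {z : ℂ | 0 ≤ z.im} := isClosed_le continuous_const Complex.continuous_im
  have h3 : IsClosed {z : ℂ | ‖z‖ ≤ δ} := isClosed_le continuous_norm continuous_const
  exact h1.inter (h2.inter h3)

theorem Qc_compact (δ : ℝ) : IsCompact (Qc δ) := by
  apply (isCompact_closedBall (0:ℂ) δ).of_isClosed_subset (Qc_closed δ)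
  intro z hz
  simpa using hz.2.2

theorem Qc_subset_closure {δ : ℝ} (hδ : 0 < δ) : Qc δ ⊆ closure (Q δ) := by
  intro z hz
  set w : ℂ := ((δ / 4 : ℝ) : ℂ) * (1 + I) with hw
  have hwre : w.re = δ / 4 := by simp [hw]
  have hwim : w.im = δ / 4 := by simp [hw]
  have hwn : ‖w‖ < δ := by
    calc ‖w‖ ≤ |w.re| + |w.im| := Complex.norm_le_abs_re_add_abs_im w
      _ < δ := by rw [hwre, hwim, abs_of_pos (by positivity)]; linarith
  have hseg : z ∈ segment ℝ w z := right_mem_segment ℝ w z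
  apply closure_mono _ (segment_subset_closure_openSegment hseg)
  rintro y ⟨a, b, ha, hb, hab, rfl⟩
  refine ⟨?_, ?_, ?_⟩
  · simp only [Complex.add_re, Complex.real_smul, Complex.re_ofReal_mul]
    rw [hwre]
    have := mul_nonneg hb.le hz.1
    have := mul_pos ha (show 0 < δ / 4 by positivity)
    linarith
  · simp only [Complex.add_im, Complex.real_smul, Complex.im_ofReal_mul]
    rw [hwim]
    have := mul_nonneg hb.le hz.2.1
    have := mul_pos ha (show 0 < δ / 4 by positivity)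
    linarith
  · calc ‖a • w + b • z‖ ≤ ‖a • w‖ + ‖b • z‖ := norm_add_le _ _
      _ = a * ‖w‖ + b * ‖z‖ := by
        rw [norm_smul, norm_smul, Real.norm_of_nonneg ha.le, Real.norm_of_nonneg hb.le]
      _ < a * δ + b * δ := by
        have h1 := mul_lt_mul_of_pos_left hwn ha
        have h2 := mul_le_mul_of_nonneg_left hz.2.2 hb.le
        linarith
      _ = δ := by rw [← add_mul, hab, one_mul]

/-- closure of the image of an open interval -/
theorem closure_path {h : ℝ → ℂ} (hc : ContinuousOn h (Icc 0 1)) :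
    closure (h '' Ioo 0 1) = h '' Icc 0 1 := by
  apply Subset.antisymm
  · apply closure_minimal (image_mono Ioo_subset_Icc_self)
    exact (isCompact_Icc.image_of_continuousOn hc).isClosed
  · have := ContinuousOn.image_closure (f := h) (s := Ioo (0:ℝ) 1)
      (by rw [closure_Ioo (by norm_num)]; exact hc)
    rwa [closure_Ioo (by norm_num)] at this

/-- the three paths -/
noncomputable def path (δ : ℝ) : Fin 3 → ℝ → ℂ
  | 0 => fun t => ((t * δ : ℝ) : ℂ)
  | 1 => fun t => (((1 - t) * δ : ℝ) : ℂ) + ((Real.sqrt (1 - (1 - t) ^ 2) * δ : ℝ) : ℂ) * I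
  | 2 => fun t => (((1 - t) * δ : ℝ) : ℂ) * I

noncomputable def vert (δ : ℝ) : Fin 3 → ℂ
  | 0 => 0
  | 1 => (δ : ℂ)
  | 2 => (δ : ℂ) * I

theorem path_cont (δ : ℝ) (i : Fin 3) : Continuous (path δ i) := by
  fin_cases i
  · show Continuous (fun t : ℝ => ((t * δ : ℝ) : ℂ))
    fun_prop
  · show Continuous (fun t : ℝ =>
      (((1 - t) * δ : ℝ) : ℂ) + ((Real.sqrt (1 - (1 - t) ^ 2) * δ : ℝ) : ℂ) * I)
    fun_prop
  · show Continuous (fun t : ℝ => (((1 - t) * δ : ℝ) : ℂ) * I)
    fun_prop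

theorem path_zero (δ : ℝ) (i : Fin 3) : path δ i 0 = vert δ i := by
  fin_cases i <;> simp [path, vert]

theorem path_one (δ : ℝ) (i : Fin 3) : path δ i 1 = vert δ (i + 1) := by
  fin_cases i
  · show ((1 * δ : ℝ) : ℂ) = (δ : ℂ)
    simp
  · show (((1 - 1) * δ : ℝ) : ℂ) + ((Real.sqrt (1 - (1 - 1) ^ 2) * δ : ℝ) : ℂ) * I = (δ : ℂ) * I
    simp
  · show (((1 - 1) * δ : ℝ) : ℂ) * I = 0
    simp

end Pool.Agent.V8H30.OC
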